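import Pool.Agent.TH463.UR.Main
import Pool.Agent.TH463.UQ.Trace

/-!
Universal sets of multipliers inside sparse sets and the tracial states of the group algebra of
`ℤ² ⋉ ℤ[1/6]`.
-/

set_option autoImplicit false

open MeasureTheory Filter Topology Finset
open scoped ComplexOrder

namespace Pool.Agent.R481.TraceBT

open Pool.Agent.W763.Tr
open Pool.Agent.TH654.FC
open Pool.Agent.TH463.UQ (finite_or_atomless)
open Pool.Agent.TH463.UR (BT Reg)

section

variable {G : Subgroup (Equiv.Perm ℚ)} {τ : ℤ → G} {φ : G → ℂ} {S6 : G} {μ : Measure UnitAddCircle}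

/-- averages of characters tend to zero in mean square for atomless measures -/
lemma mean_zero (ν : Measure UnitAddCircle) [IsProbabilityMeasure ν] (hat : ∀ x, ν {x} = 0)
    {D : ℤ} (hD : D ≠ 0) :
    Tendsto (fun n : ℕ => ∫ x, ‖((n : ℂ)⁻¹ * ∑ i ∈ range n, (fourier (D * i) x : ℂ))‖ ^ 2 ∂ν)
      atTop (𝓝 0) := by
  have h0 : Tendsto (fun n : ℕ => ∫ x, ‖((n : ℂ)⁻¹ * ∑ i ∈ range n, (fourier (D * i) x : ℂ))‖ ^ 2 ∂ν)
      atTop (𝓝 (∫ _x, (0 : ℝ) ∂ν)) := by
    refine tendsto_integral_of_dominated_convergence (fun _ => (1 : ℝ)) (fun n => ?_)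
      (integrable_const _) (fun n => ?_) ?_
    · exact (by fun_prop : Continuous fun x : UnitAddCircle =>
        ‖((n : ℂ)⁻¹ * ∑ i ∈ range n, (fourier (D * i) x : ℂ))‖ ^ 2).aestronglyMeasurable
    · refine Eventually.of_forall fun x => ?_
      rw [Real.norm_of_nonneg (by positivity)]
      refine pow_le_one₀ (norm_nonneg _) ?_
      rcases Nat.eq_zero_or_pos n with rfl | hn
      · simp
      rw [norm_mul, norm_inv, Complex.norm_natCast]
      have h1 : ‖∑ i ∈ range n, (fourier (D * i) x : ℂ)‖ ≤ n := by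
        refine (norm_sum_le _ _).trans ?_
        refine (Finset.sum_le_card_nsmul _ _ 1 fun i _ => ?_).trans ?_
        · rw [fourier_apply]; exact (Circle.norm_coe _).le
        · simp
      have hn' : (0 : ℝ) < n := by exact_mod_cast hn
      rw [inv_mul_le_iff₀ hn', mul_one]
      exact h1
    · have h2 : ν {x : UnitAddCircle | D • x = 0} = 0 := by
        have hfin : {x : UnitAddCircle | D • x = 0}.Finite := by
          have hnat : {x : UnitAddCircle | D • x = 0} = {x : UnitAddCircle | D.natAbs • x = 0} := by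
            ext x
            simp only [Set.mem_ofPred_eq]
            rcases Int.natAbs_eq D with h | h
            · constructor
              · intro hx; rw [h, natCast_zsmul] at hx; exact hx
              · intro hx; rw [h, natCast_zsmul]; exact hx
            · constructor
              · intro hx; rw [h, neg_zsmul, natCast_zsmul, neg_eq_zero] at hx; exact hx
              · intro hx; rw [h, neg_zsmul, natCast_zsmul, neg_eq_zero]; exact hx
          rw [hnat]
          exact AddCircle.finite_torsion _ (Int.natAbs_pos.2 hD)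
        have hcount := hfin.countable
        rw [← Set.biUnion_of_singleton {x : UnitAddCircle | D • x = 0}]
        exact (measure_biUnion_null_iff hcount).2 fun x _ => hat x
      have h3 : ∀ᵐ x ∂ν, D • x ≠ 0 := by
        rw [ae_iff]; simpa using h2
      filter_upwards [h3] with x hx
      have hne : (fourier D x : ℂ) ≠ 1 := by
        intro h4
        apply hx
        rw [fourier_apply] at h4
        have h6 : AddCircle.toCircle (D • x) = 1 := Circle.coe_eq_one.1 h4
        rw [← AddCircle.toCircle_zero (T := 1)] at h6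
        exact AddCircle.injective_toCircle one_ne_zero h6
      have hgeom : ∀ n : ℕ, ∑ i ∈ range n, (fourier (D * i) x : ℂ) =
          ((fourier D x : ℂ) ^ n - 1) / ((fourier D x : ℂ) - 1) := by
        intro n
        rw [← geom_sum_eq hne]
        refine Finset.sum_congr rfl fun i _ => ?_
        have h8 : ∀ k : ℕ, (fourier (D * k) x : ℂ) = (fourier D x : ℂ) ^ k := by
          intro k
          induction k with
          | zero => simp
          | succ k ih =>
            rw [pow_succ, ← ih, ← fourier_add]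
            congr 2
            push_cast; ring_nf
        exact h8 i
      have hbound : ∀ n : ℕ, ‖((n : ℂ)⁻¹ * ∑ i ∈ range n, (fourier (D * i) x : ℂ))‖ ^ 2 ≤
          ((n : ℝ)⁻¹ * (2 / ‖(fourier D x : ℂ) - 1‖)) ^ 2 := by
        intro n
        refine pow_le_pow_left₀ (norm_nonneg _) ?_ 2
        rw [norm_mul, norm_inv, Complex.norm_natCast, hgeom n, norm_div]
        refine mul_le_mul_of_nonneg_left ?_ (by positivity)
        refine div_le_div_of_nonneg_right ?_ (norm_nonneg _)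
        refine (norm_sub_le _ _).trans ?_
        have h9 : ‖(fourier D x : ℂ) ^ n‖ = 1 := by
          rw [norm_pow, fourier_apply, Circle.norm_coe, one_pow]
        rw [h9, norm_one]; norm_num
      refine squeeze_zero (fun n => by positivity) hbound ?_
      have h10 : Tendsto (fun n : ℕ => ((n : ℝ)⁻¹ * (2 / ‖(fourier D x : ℂ) - 1‖)) ^ 2) atTop
          (𝓝 ((0 * (2 / ‖(fourier D x : ℂ) - 1‖)) ^ 2)) :=
        ((tendsto_inv_atTop_nhds_zero_nat (𝕜 := ℝ)).mul_const _).pow 2
      simpa using h10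
  simpa using h0

/-- an atomless trace vanishes outside of the translations -/
lemma vanish (D : Data G τ φ S6 μ) (hat : ∀ x, μ {x} = 0) (g : G)
    (hg : ¬ ∃ r : ℚ, ∀ x : ℚ, (g : Equiv.Perm ℚ) x = x + r) : φ g = 0 := by
  have := D.prob
  obtain ⟨a, b, r, hr, hx⟩ := D.hform g
  set lam : ℚ := 2 ^ a * 3 ^ b with hlam
  have h : lam ≠ 1 := by
    intro h; apply hg
    exact ⟨r, fun x => by rw [hx, h, one_mul]⟩
  have hd : (1 - lam).num ≠ 0 := by
    rw [Rat.num_ne_zero, sub_ne_zero]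
    exact fun e => h e.symm
  have hnum : (1 - lam) * (1 - lam).den = (1 - lam).num := Rat.mul_den_eq_num _
  set v : ℤ := ((1 - lam).den : ℤ) with hv
  set E : ℤ := (1 - lam).num with hE
  have hnum' : (1 - lam) * (v : ℚ) = E := by
    rw [hv]; push_cast; exact hnum
  have hconj : ∀ i : ℤ, φ (τ (E * i) * g) = φ g := by
    intro i
    have e : τ (v * i) * g * (τ (v * i))⁻¹ = τ (E * i) * g := by
      rw [mul_inv_eq_iff_eq_mul]
      apply Subtype.ext
      apply Equiv.ext
      intro x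
      rw [Subgroup.coe_mul, Subgroup.coe_mul, Subgroup.coe_mul, Equiv.Perm.mul_apply,
        Equiv.Perm.mul_apply, Equiv.Perm.mul_apply, D.hτ, D.hτ, D.hτ, hx, hx]
      push_cast
      linear_combination (i : ℚ) * hnum'
    rw [← e, D.hcl]
  have hconj' : ∀ i : ℤ, φ (g * τ (E * i)) = φ g := by
    intro i
    have := D.hcl (g * τ (E * i)) (τ (E * i))
    rw [← mul_assoc, mul_inv_cancel_right] at this
    rw [← this, hconj]
  -- the inequality
  have key : ∀ n : ℕ, 0 < n → ‖φ g‖ ^ 2 ≤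
      ∫ x, ‖((n : ℂ)⁻¹ * ∑ i ∈ range n, (fourier (E * i) x : ℂ))‖ ^ 2 ∂μ := by
    intro n hn
    have h2 := D.hpd.family (univ : Finset (Option (Fin n)))
      (fun o => o.elim g⁻¹ (fun i => τ (E * (i : ℕ)))) (fun o => o.elim (-φ g) (fun _ => (n : ℂ)⁻¹))
    rw [Fintype.sum_option] at h2
    simp only [Option.elim, Fintype.sum_option, inv_inv] at h2
    have hn0 : (n : ℂ) ≠ 0 := by exact_mod_cast hn.ne'
    have hs1 : ∑ i : Fin n, star ((n : ℂ)⁻¹) * (-φ g) * φ ((τ (E * ((i : ℕ) : ℤ)))⁻¹ * g⁻¹) =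
        -(φ g * star (φ g)) := by
      have : ∀ i : Fin n, φ ((τ (E * ((i : ℕ) : ℤ)))⁻¹ * g⁻¹) = star (φ g) := by
        intro i
        rw [← mul_inv_rev, D.hpd.inv D.h1, hconj']
      simp only [this, Finset.sum_const, card_univ, Fintype.card_fin, nsmul_eq_mul]
      rw [star_inv₀, show star (n : ℂ) = (n : ℂ) from by simp]
      field_simp
    have hs2 : ∑ i : Fin n, star (-φ g) * (n : ℂ)⁻¹ * φ (g * τ (E * ((i : ℕ) : ℤ))) =
        -(φ g * star (φ g)) := by
      simp only [hconj', Finset.sum_const, card_univ, Fintype.card_fin, nsmul_eq_mul]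
      rw [star_neg]
      field_simp
    have hs3 : ∑ i : Fin n, ∑ j : Fin n, star ((n : ℂ)⁻¹) * (n : ℂ)⁻¹ *
        φ ((τ (E * ((j : ℕ) : ℤ)))⁻¹ * τ (E * ((i : ℕ) : ℤ))) =
        ((∫ x, ‖((n : ℂ)⁻¹ * ∑ i ∈ range n, (fourier (E * i) x : ℂ))‖ ^ 2 ∂μ : ℝ) : ℂ) := by
      have e1 : ∀ i j : Fin n, φ ((τ (E * ((j : ℕ) : ℤ)))⁻¹ * τ (E * ((i : ℕ) : ℤ))) =
          ∫ x, fourier (E * ((i : ℕ) : ℤ) - E * ((j : ℕ) : ℤ)) x ∂μ := by
        intro i j
        rw [D.hμ, tau_inv D.hτ, tau_add D.hτ]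
        congr 2; ring
      have hsq : ∀ x : UnitAddCircle, ((‖((n : ℂ)⁻¹ * ∑ i ∈ range n, (fourier (E * i) x : ℂ))‖ ^ 2 : ℝ) : ℂ) =
          ∑ i : Fin n, ∑ j : Fin n, star ((n : ℂ)⁻¹) * (n : ℂ)⁻¹ *
            fourier (E * ((i : ℕ) : ℤ) - E * ((j : ℕ) : ℤ)) x := by
        intro x
        have e2 : ((‖((n : ℂ)⁻¹ * ∑ i ∈ range n, (fourier (E * i) x : ℂ))‖ ^ 2 : ℝ) : ℂ) =
            ((n : ℂ)⁻¹ * ∑ i ∈ range n, (fourier (E * i) x : ℂ)) *
            starRingEnd ℂ ((n : ℂ)⁻¹ * ∑ i ∈ range n, (fourier (E * i) x : ℂ)) := by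
          rw [Complex.mul_conj, Complex.normSq_eq_norm_sq]
        rw [e2, ← Fin.sum_univ_eq_sum_range (fun i => (fourier (E * i) x : ℂ)) n, map_mul, map_sum,
          Finset.mul_sum, Finset.mul_sum, Finset.sum_mul_sum]
        refine Finset.sum_congr rfl fun i _ => Finset.sum_congr rfl fun j _ => ?_
        rw [← fourier_neg, sub_eq_add_neg, fourier_add]
        simp only [map_inv₀, Complex.conj_natCast, star_inv₀, star_natCast]
        ring
      have hi : ∀ m : ℤ, Integrable (fun x : UnitAddCircle => (fourier m x : ℂ)) μ := fun m =>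
        (by fun_prop : Continuous (fun x : UnitAddCircle =>
          (fourier m x : ℂ))).integrable_of_hasCompactSupport (HasCompactSupport.of_compactSpace _)
      rw [← integral_complex_ofReal]
      simp only [hsq, e1]
      rw [integral_finsetSum]
      · refine Finset.sum_congr rfl fun i _ => ?_
        rw [integral_finsetSum]
        · refine Finset.sum_congr rfl fun j _ => ?_
          rw [integral_const_mul]
        · intro j _
          exact (hi _).const_mul _
      · intro i _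
        exact integrable_finsetSum _ fun j _ => (hi _).const_mul _
    rw [Finset.sum_add_distrib] at h2
    rw [hs2] at h2
    have hs1' : ∑ i : Fin n, star (-φ g) * (n : ℂ)⁻¹ * φ (g * τ (E * ((i : ℕ) : ℤ))) =
        -(φ g * star (φ g)) := hs2
    rw [hs3, hs1] at h2
    have h3 : star (-φ g) * -φ g * φ (g * g⁻¹) = φ g * star (φ g) := by
      rw [mul_inv_cancel, D.h1]; simp [mul_comm]
    rw [h3] at h2
    have h4 : φ g * star (φ g) = ((‖φ g‖ ^ 2 : ℝ) : ℂ) := by
      rw [Complex.star_def, Complex.mul_conj, Complex.normSq_eq_norm_sq]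
    rw [h4] at h2
    have h5 := (Complex.nonneg_iff.1 h2).1
    simp only [Complex.add_re, Complex.neg_re, Complex.ofReal_re] at h5
    linarith
  have hlim := mean_zero μ hat hd
  have h6 : ‖φ g‖ ^ 2 ≤ 0 := by
    refine ge_of_tendsto hlim ?_
    filter_upwards [eventually_gt_atTop 0] with n hn using key n hn
  have h7 : ‖φ g‖ = 0 := by nlinarith [norm_nonneg (φ g)]
  exact norm_eq_zero.1 h7

/-- from the Fourier coefficients to all the coefficients of the GNS representation -/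
lemma mixing_all (D : Data G τ φ S6 μ) (hat : ∀ x, μ {x} = 0) {l : Filter ℕ}
    (hC : ∀ (a : ℕ) (t : ℤ),
      Tendsto (fun c : ℕ => ∫ x, (fourier (((a : ℤ) + 1) * c + t) x : ℂ) ∂μ) l (𝓝 0))
    (x y g : G) (hg1 : g ≠ 1) (hg : ∃ r : ℚ, ∀ z : ℚ, (g : Equiv.Perm ℚ) z = z + r) :
    Tendsto (fun c : ℕ => φ (x * g ^ c * y)) l (𝓝 0) := by
  have := D.prob
  obtain ⟨r, hg⟩ := hg
  have hpow : ∀ c : ℕ, ∀ z, ((g ^ c : G) : Equiv.Perm ℚ) z = z + c * r := by
    intro n
    induction n with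
    | zero => intro x; simp
    | succ n ih =>
      intro x
      rw [pow_succ, Subgroup.coe_mul, Equiv.Perm.mul_apply, hg, ih]
      push_cast; ring
  have hcyc : ∀ c : ℕ, φ (x * g ^ c * y) = φ (g ^ c * (y * x)) := by
    intro c
    have := D.hcl (x * g ^ c * y) x⁻¹
    rw [← this]
    congr 1
    group
  simp_rw [hcyc]
  by_cases hw : ∃ s : ℚ, ∀ z : ℚ, ((y * x : G) : Equiv.Perm ℚ) z = z + s
  · obtain ⟨s, hw⟩ := hw
    obtain ⟨m, k, hr⟩ := D.six hg
    obtain ⟨n, j, hs⟩ := D.six hw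
    have hm : m ≠ 0 := by
      intro hm
      apply hg1
      apply Subtype.ext
      apply Equiv.ext
      intro z
      rw [hg, hr, hm]
      simp
    have hM : m * 6 ^ j ≠ 0 := mul_ne_zero hm (by positivity)
    have hval : ∀ c : ℕ, φ (g ^ c * (y * x)) =
        ∫ z, (fourier (m * 6 ^ j * (c : ℤ) + n * 6 ^ k) z : ℂ) ∂μ := by
      intro c
      rw [D.hμ]
      refine phi_trans D.hτ D.hcl S6 D.hS6 _ _ (k + j) fun z => ?_
      rw [Subgroup.coe_mul, Equiv.Perm.mul_apply, hpow, hw, hr, hs]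
      have h6 : (6 : ℚ) ^ k ≠ 0 := by positivity
      have h6' : (6 : ℚ) ^ j ≠ 0 := by positivity
      push_cast
      rw [pow_add]
      field_simp
      ring
    simp_rw [hval]
    rcases lt_or_gt_of_ne hM with h | h
    · have h1 := hC (-(m * 6 ^ j) - 1).toNat (-(n * 6 ^ k))
      have e1 : (((-(m * 6 ^ j) - 1).toNat : ℤ) + 1) = -(m * 6 ^ j) := by
        rw [Int.toNat_of_nonneg (by omega)]; ring
      rw [e1] at h1
      have h2 := (Complex.continuous_conj.tendsto (0 : ℂ)).comp h1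
      rw [map_zero] at h2
      refine h2.congr fun c => ?_
      simp only [Function.comp]
      rw [← integral_conj]
      refine integral_congr_ae (Eventually.of_forall fun z => ?_)
      simp only
      rw [← fourier_neg]
      congr 2
      ring
    · have h1 := hC ((m * 6 ^ j) - 1).toNat (n * 6 ^ k)
      have e1 : ((((m * 6 ^ j) - 1).toNat : ℤ) + 1) = (m * 6 ^ j) := by
        rw [Int.toNat_of_nonneg (by omega)]; ring
      rw [e1] at h1
      exact h1
  · refine tendsto_const_nhds.congr fun c => ?_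
    refine (vanish D hat _ ?_).symm
    rintro ⟨s, hs⟩
    apply hw
    refine ⟨s - c * r, fun z => ?_⟩
    have h1 := hs z
    rw [Subgroup.coe_mul, Equiv.Perm.mul_apply, hpow] at h1
    linarith

/-- from convergence along a set to the regular trace -/
lemma regular_of (D : Data G τ φ S6 μ) {l : Filter ℕ} [l.NeBot]
    (h : ∀ x y g : G, g ≠ 1 → (∃ r : ℚ, ∀ z : ℚ, (g : Equiv.Perm ℚ) z = z + r) →
      Tendsto (fun c : ℕ => φ (x * g ^ c * y)) l (𝓝 0))
    (hinv : ∀ᶠ c in l, ∀ g : G, (∃ r : ℚ, ∀ x : ℚ, (g : Equiv.Perm ℚ) x = x + r) →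
      φ (g ^ c) = φ g) : φ = Set.indicator ({1} : Set G) (fun _ => (1 : ℂ)) := by
  have hz : ∀ g : G, g ≠ 1 → (∃ r : ℚ, ∀ x : ℚ, (g : Equiv.Perm ℚ) x = x + r) → φ g = 0 := by
    intro g hg1 hg
    have h3 := h 1 1 g hg1 hg
    simp only [one_mul, mul_one] at h3
    have h4 : Tendsto (fun c : ℕ => φ (g ^ c)) l (𝓝 (φ g)) := by
      refine (tendsto_const_nhds (x := φ g)).congr' ?_
      filter_upwards [hinv] with c hc
      exact (hc g hg).symm
    exact tendsto_nhds_unique h4 h3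
  have hz' : ∀ n : ℤ, n ≠ 0 → φ (τ n) = 0 := by
    intro n hn
    refine hz (τ n) ?_ ⟨n, D.hτ n⟩
    intro h0
    have h5 := D.hτ n 0
    rw [h0] at h5
    simp at h5
    exact hn (by exact_mod_cast h5.symm)
  funext g
  by_cases hg : g = 1
  · rw [hg, D.h1]
    simp
  · rw [eq_regular D.hτ D.h1 D.hcl D.hpd S6 D.hS6 D.hform hz' g hg]
    simp [hg]

end

/-- the conclusion: the powers with exponents in `C` of all translations tend weakly to zero in the
GNS representations of the extreme traces which are not conditionally finite-dimensional, and the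
infinite subsets of `C` are rigid -/
def Universal (C : Set ℕ) : Prop :=
  ∀ (s2 s3 t : Equiv.Perm ℚ), (∀ x : ℚ, s2 x = 2 * x) → (∀ x : ℚ, s3 x = 3 * x) →
    (∀ x : ℚ, t x = x + 1) →
    ∀ (G : Subgroup (Equiv.Perm ℚ)), G = Subgroup.closure {s2, s3, t} → ∀ φ : G → ℂ,
      φ ∈ Set.extremePoints ℝ {ψ : G → ℂ | ψ 1 = 1 ∧ (∀ g h : G, ψ (h * g * h⁻¹) = ψ g) ∧
        ∀ (s : Finset G) (c : G → ℂ), 0 ≤ ∑ i ∈ s, ∑ j ∈ s, star (c j) * c i * ψ (j⁻¹ * i)} →
      (FiniteDimensional ℂ (Submodule.span ℂ {F : G → ℂ | ∃ n : G,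
          (∃ r : ℚ, ∀ x : ℚ, (n : Equiv.Perm ℚ) x = x + r) ∧ F = fun x => φ (n * x)}) ∨
        ∀ x y g : G, g ≠ 1 → (∃ r : ℚ, ∀ z : ℚ, (g : Equiv.Perm ℚ) z = z + r) →
          Tendsto (fun c : ℕ => φ (x * g ^ c * y)) (atTop ⊓ 𝓟 C) (𝓝 0)) ∧
      ∀ S : Set ℕ, S ⊆ C → S.Infinite →
        (∀ c ∈ S, ∀ g : G, (∃ r : ℚ, ∀ x : ℚ, (g : Equiv.Perm ℚ) x = x + r) → φ (g ^ c) = φ g) →
        φ = Set.indicator ({1} : Set G) (fun _ => (1 : ℂ)) ∨
          FiniteDimensional ℂ (Submodule.span ℂ {F : G → ℂ | ∃ n : G,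
            (∃ r : ℚ, ∀ x : ℚ, (n : Equiv.Perm ℚ) x = x + r) ∧ F = fun x => φ (n * x)})

/-- **Universal sets inside sparse sets.** -/
theorem main_BT {P : Set ℕ} {F : ℕ → ℝ} {K : ℝ} {e : ℕ} (hF : Reg F) (hK : 0 ≤ K)
    (hP : BT P F K e) {η : ℝ} (hη : 0 < η) : ∃ C : Set ℕ, C ⊆ P ∧
    (∀ N : ℕ, (Nat.card {c : ℕ | c < N ∧ c ∈ P ∧ c ∉ C} : ℝ) ≤ η * F N) ∧ Universal C := by
  classical
  obtain ⟨C, β, h0, h1, h2⟩ := Pool.Agent.TH463.UR.exists_set hF hK hP hη
  refine ⟨C, h0, fun N => ?_, ?_⟩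
  · rw [Pool.Agent.TH463.UR.card_setOf]
    refine le_trans (le_of_eq ?_) (h1 N)
    congr!
  intro s2 s3 t hs2 hs3 ht G hG φ hext
  obtain ⟨hφ1, hcl, hpd⟩ := hext.1
  obtain ⟨τ, S6, μ, D⟩ := data_of hs2 hs3 ht hG hφ1 hcl hpd
  have hprob := D.prob
  have hkey : (∀ x, μ {x} = 0) → ∀ x y g : G, g ≠ 1 →
      (∃ r : ℚ, ∀ z : ℚ, (g : Equiv.Perm ℚ) z = z + r) →
      Tendsto (fun c : ℕ => φ (x * g ^ c * y)) (atTop ⊓ 𝓟 C) (𝓝 0) := fun hat =>
    mixing_all D hat fun a t => Pool.Agent.TH463.UR.coeff_tendsto h2 le_rfl D.mp2 hat a t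
  rcases finite_or_atomless D hext with hfd | hat
  · exact ⟨Or.inl hfd, fun _ _ _ _ => Or.inr hfd⟩
  · refine ⟨Or.inr (hkey hat), fun S hS hSi hinv => Or.inl ?_⟩
    have hne := Pool.Agent.TH463.UR.neBot_inf hSi
    have hle : (atTop ⊓ 𝓟 S : Filter ℕ) ≤ atTop ⊓ 𝓟 C := inf_le_inf_left _ (principal_mono.2 hS)
    exact regular_of D (fun x y g h1 h2 => (hkey hat x y g h1 h2).mono_left hle)
      (eventually_inf_principal.2 (Eventually.of_forall fun c hc => hinv c hc))

/-- **Universal sets of primes.** -/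
theorem main_primes {η : ℝ} (hη : 0 < η) : ∃ C : Set ℕ, (∀ c ∈ C, c.Prime) ∧
    (∀ N : ℕ, (Nat.card {c : ℕ | c < N ∧ c.Prime ∧ c ∉ C} : ℝ) ≤
      η * Nat.card {c : ℕ | c < N ∧ c.Prime}) ∧ Universal C := by
  obtain ⟨K, hK, hP⟩ := Pool.Agent.TH463.UR.bt_primes
  obtain ⟨C, h0, h1, h2⟩ := main_BT Pool.Agent.TH463.UR.reg_GP hK hP
    (show 0 < η / 20 by positivity)
  refine ⟨C, fun c hc => h0 hc, fun N => ?_, h2⟩
  rcases lt_or_ge N 3 with hN | hN
  · have : {c : ℕ | c < N ∧ c.Prime ∧ c ∉ C} = ∅ := by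
      rw [Set.eq_empty_iff_forall_notMem]
      rintro c ⟨h3, h4, -⟩
      have := h4.two_le
      omega
    rw [this]
    simp only [Nat.card_eq_fintype_card, Fintype.card_of_isEmpty, Nat.cast_zero]
    positivity
  · refine (h1 N).trans ?_
    have := mul_le_mul_of_nonneg_left (Pool.Agent.TH463.UR.GP_le_count hN)
      (show 0 ≤ η / 20 by positivity)
    linarith

end Pool.Agent.R481.TraceBT
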