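import Pool.Agent.R481.TraceFS
import Pool.Agent.R202.STP

/-!
The measure of an extreme trace of the group algebra of `ℤ² ⋉ ℤ[1/6]` which is not conditionally
finite-dimensional is ergodic for the action of 2 and 3.
-/

set_option autoImplicit false

open MeasureTheory Filter Topology Finset
open scoped ENNReal ComplexOrder

namespace Pool.Agent.R481.TraceErg

open Pool.Agent.W763.Tr
open Pool.Agent.TH654.FC
open Pool.Agent.TH463.UQ (finite_or_atomless)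
open Pool.Agent.R481.TraceBT (vanish)
open Pool.Agent.R481.TraceFS (zpow_apply map_eq)
open Pool.Agent.R202.TM (JointErg)
open Pool.Agent.R202.STP (means_coeff image_erg coeff_ne_one cnt)

section

variable {ν : Measure UnitAddCircle}

/-- the coefficient at an element of `ℤ[1/6]` -/
noncomputable def F (ν : Measure UnitAddCircle) (r : ℚ) : ℂ :=
  open Classical in if h : Six r then ∫ x, (fourier h.choose x : ℂ) ∂ν else 0

lemma coeff_nsmul {m : ℕ} (h : MeasurePreserving (fun x : UnitAddCircle => m • x) ν ν) (n : ℤ) :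
    ∫ x, (fourier ((m : ℤ) * n) x : ℂ) ∂ν = ∫ x, (fourier n x : ℂ) ∂ν := by
  have h1 := integral_map_nsmul ν m n
  rw [h.map_eq] at h1
  rw [h1, mul_comm]

lemma coeff_pow {m : ℕ} (h : MeasurePreserving (fun x : UnitAddCircle => m • x) ν ν) (i : ℕ) (n : ℤ) :
    ∫ x, (fourier ((m : ℤ) ^ i * n) x : ℂ) ∂ν = ∫ x, (fourier n x : ℂ) ∂ν := by
  induction i with
  | zero => simp
  | succ i ih => rw [pow_succ', mul_assoc, coeff_nsmul h, ih]

variable (m2 : MeasurePreserving (fun x : UnitAddCircle => 2 • x) ν ν)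
  (m3 : MeasurePreserving (fun x : UnitAddCircle => 3 • x) ν ν)

include m2 m3 in
lemma coeff_23 (i j : ℕ) (n : ℤ) :
    ∫ x, (fourier ((2 : ℤ) ^ i * 3 ^ j * n) x : ℂ) ∂ν = ∫ x, (fourier n x : ℂ) ∂ν := by
  have h2 := coeff_pow m2 i (3 ^ j * n)
  have h3 := coeff_pow m3 j n
  push_cast at h2 h3
  rw [mul_assoc, h2, h3]

include m2 m3 in
lemma coeff_six (i : ℕ) (n : ℤ) :
    ∫ x, (fourier ((6 : ℤ) ^ i * n) x : ℂ) ∂ν = ∫ x, (fourier n x : ℂ) ∂ν := by
  rw [show (6 : ℤ) ^ i = 2 ^ i * 3 ^ i by rw [← mul_pow]; norm_num, coeff_23 m2 m3]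

include m2 m3 in
lemma F_eq {r : ℚ} {n : ℤ} {k : ℕ} (hr : r = n / 6 ^ k) : F ν r = ∫ x, (fourier n x : ℂ) ∂ν := by
  have h : Six r := ⟨n, k, hr⟩
  rw [F, dif_pos h]
  obtain ⟨k0, hk0⟩ := h.choose_spec
  set n0 := h.choose
  have e : (n0 : ℚ) * 6 ^ k = n * 6 ^ k0 := by
    rw [hk0] at hr
    field_simp at hr
    linarith
  have e' : (6 : ℤ) ^ k * n0 = 6 ^ k0 * n := by
    have : ((6 : ℤ) ^ k * n0 : ℚ) = 6 ^ k0 * n := by push_cast; linarith
    exact_mod_cast this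
  rw [← coeff_six m2 m3 k n0, e', coeff_six m2 m3]

include m2 m3 in
lemma F_mul {r : ℚ} (hr : Six r) (a b : ℤ) : F ν (2 ^ a * 3 ^ b * r) = F ν r := by
  obtain ⟨n, k, hr⟩ := hr
  rw [F_eq m2 m3 hr]
  obtain ⟨l, hl⟩ : ∃ l : ℕ, l = a.natAbs + b.natAbs := ⟨_, rfl⟩
  have ha : ((a + l).toNat : ℤ) = a + l := Int.toNat_of_nonneg (by omega)
  have hb : ((b + l).toNat : ℤ) = b + l := Int.toNat_of_nonneg (by omega)
  rw [← coeff_23 m2 m3 (a + l).toNat (b + l).toNat n]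
  refine F_eq m2 m3 (k := k + l) ?_
  rw [hr]
  push_cast
  rw [← zpow_natCast (2 : ℚ) (a + l).toNat, ← zpow_natCast (3 : ℚ) (b + l).toNat, ha, hb,
    zpow_add₀ (by norm_num), zpow_add₀ (by norm_num), zpow_natCast, zpow_natCast, pow_add,
    show (6 : ℚ) ^ l = 2 ^ l * 3 ^ l by rw [← mul_pow]; norm_num]
  field_simp

end

section

variable {G : Subgroup (Equiv.Perm ℚ)}

/-- the extension of a measure to the group -/
noncomputable def ext (G : Subgroup (Equiv.Perm ℚ)) (ν : Measure UnitAddCircle) (g : G) : ℂ :=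
  open Classical in
  if ∀ x, (g : Equiv.Perm ℚ) x = x + (g : Equiv.Perm ℚ) 0 then F ν ((g : Equiv.Perm ℚ) 0) else 0

/-- the form of the elements -/
def Form (G : Subgroup (Equiv.Perm ℚ)) : Prop :=
  ∀ g : G, ∃ (a b : ℤ) (r : ℚ), Six r ∧ ∀ x, (g : Equiv.Perm ℚ) x = 2 ^ a * 3 ^ b * x + r

variable {ν : Measure UnitAddCircle}
  (m2 : MeasurePreserving (fun x : UnitAddCircle => 2 • x) ν ν)
  (m3 : MeasurePreserving (fun x : UnitAddCircle => 3 • x) ν ν)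

include m2 m3 in
lemma ext_trans {g : G} {n : ℤ} {k : ℕ} (hg : ∀ x, (g : Equiv.Perm ℚ) x = x + n / 6 ^ k) :
    ext G ν g = ∫ x, (fourier n x : ℂ) ∂ν := by
  have h0 : (g : Equiv.Perm ℚ) 0 = n / 6 ^ k := by rw [hg, zero_add]
  rw [ext, if_pos (fun x => by rw [h0, hg]), F_eq m2 m3 h0]

lemma ext_other {g : G} (hg : ¬ ∃ r : ℚ, ∀ x : ℚ, (g : Equiv.Perm ℚ) x = x + r) :
    ext G ν g = 0 := by
  rw [ext, if_neg (fun h => hg ⟨_, h⟩)]

lemma apply_inv (h : G) (x : ℚ) :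
    (h : Equiv.Perm ℚ) (((h⁻¹ : G) : Equiv.Perm ℚ) x) = x := by
  rw [Subgroup.coe_inv]
  exact (h : Equiv.Perm ℚ).apply_symm_apply x

lemma conj_trans {g h : G} {r lam s : ℚ} (hg : ∀ x, (g : Equiv.Perm ℚ) x = x + r)
    (hh : ∀ x, (h : Equiv.Perm ℚ) x = lam * x + s) (x : ℚ) :
    ((h * g * h⁻¹ : G) : Equiv.Perm ℚ) x = x + lam * r := by
  rw [Subgroup.coe_mul, Subgroup.coe_mul, Equiv.Perm.mul_apply, Equiv.Perm.mul_apply, hg, hh]
  have h1 := apply_inv h x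
  rw [hh] at h1
  linarith

include m2 m3 in
lemma ext_class (hf : Form G) (g h : G) : ext G ν (h * g * h⁻¹) = ext G ν g := by
  obtain ⟨a, b, s, hs, hh⟩ := hf h
  by_cases hg : ∃ r : ℚ, ∀ x : ℚ, (g : Equiv.Perm ℚ) x = x + r
  · obtain ⟨r, hg⟩ := hg
    obtain ⟨a', b', r', hr', hx⟩ := hf g
    have hr : Six r := by
      have h0 := hg 0
      have h1 := hx 0
      have : r = r' := by rw [h0] at h1; simpa using h1
      rw [this]; exact hr'
    have h1 := conj_trans hg hh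
    have h0 : ((h * g * h⁻¹ : G) : Equiv.Perm ℚ) 0 = 2 ^ a * 3 ^ b * r := by rw [h1, zero_add]
    have h2 : (g : Equiv.Perm ℚ) 0 = r := by rw [hg, zero_add]
    rw [ext, ext, if_pos (fun x => by rw [h0, h1]), if_pos (fun x => by rw [h2, hg]), h0, h2,
      F_mul m2 m3 hr]
  · rw [ext_other hg, ext_other]
    rintro ⟨r, hr⟩
    obtain ⟨a', b', s', hs', hh'⟩ := hf h⁻¹
    apply hg
    refine ⟨2 ^ a' * 3 ^ b' * r, fun x => ?_⟩
    have h1 := conj_trans hr hh' x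
    have e : h⁻¹ * (h * g * h⁻¹) * (h⁻¹)⁻¹ = g := by group
    rw [e] at h1
    exact h1

include m2 m3 in
lemma ext_pd [IsFiniteMeasure ν] (hf : Form G) : PD (ext G ν) := by
  classical
  intro s c
  choose a b r hr hx using hf
  set lam : G → ℚ := fun g => 2 ^ a g * 3 ^ b g with hlam
  have hlam0 : ∀ g, lam g ≠ 0 := fun g => by
    simp only [hlam]
    exact mul_ne_zero (zpow_ne_zero _ (by norm_num)) (zpow_ne_zero _ (by norm_num))
  have hx' : ∀ (g : G) (x : ℚ), (g : Equiv.Perm ℚ) x = lam g * x + r g := hx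
  -- common denominators
  have hsix : ∀ g, ∃ (n : ℤ) (k : ℕ), r g / lam g = n / 6 ^ k := by
    intro g
    have h1 : Six (r g * ((2 : ℚ) ^ (-a g) * 3 ^ (-b g))) :=
      (hr g).mul ((six_two _).mul (six_three _))
    obtain ⟨n, k, h⟩ := h1
    refine ⟨n, k, ?_⟩
    rw [← h, zpow_neg, zpow_neg, ← mul_inv]
    rfl
  choose n k hnk using hsix
  set K : ℕ := ∑ i ∈ s, k i with hK
  set m : G → ℤ := fun g => n g * 6 ^ (K - k g) with hm
  have hmK : ∀ g ∈ s, r g / lam g = m g / 6 ^ K := by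
    intro g hg
    have hle : k g ≤ K := Finset.single_le_sum (fun _ _ => Nat.zero_le _) hg
    rw [hnk, hm]
    push_cast
    rw [div_eq_div_iff (by positivity) (by positivity), mul_assoc, ← pow_add,
      Nat.sub_add_cancel hle]
  have hext : ∀ i ∈ s, ∀ j ∈ s, lam i = lam j →
      ext G ν (j⁻¹ * i) = ∫ x, (fourier (m i - m j) x : ℂ) ∂ν := by
    intro i hi j hj hij
    refine ext_trans m2 m3 (k := K) fun x => ?_
    apply (j : Equiv.Perm ℚ).injective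
    rw [Subgroup.coe_mul, Equiv.Perm.mul_apply, apply_inv, hx', hx', ← hij]
    have h1 := hmK i hi
    have h2 := hmK j hj
    rw [← hij] at h2
    rw [div_eq_iff (hlam0 i)] at h1 h2
    rw [h1, h2]
    push_cast
    ring
  have hext0 : ∀ i j, lam i ≠ lam j → ext G ν (j⁻¹ * i) = 0 := by
    intro i j hij
    refine ext_other ?_
    rintro ⟨u, hu⟩
    apply hij
    have h1 : ∀ x, (i : Equiv.Perm ℚ) x = (j : Equiv.Perm ℚ) (x + u) := by
      intro x
      rw [← hu x, Subgroup.coe_mul, Equiv.Perm.mul_apply, apply_inv]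
    have h2 := h1 0
    have h3 := h1 1
    rw [hx', hx'] at h2 h3
    linarith
  have hsum : ∑ i ∈ s, ∑ j ∈ s, star (c j) * c i * ext G ν (j⁻¹ * i) =
      ∑ l ∈ s.image lam, ∑ i ∈ s with lam i = l, ∑ j ∈ s with lam j = l,
        star (c j) * c i * ∫ x, (fourier (m i - m j) x : ℂ) ∂ν := by
    rw [← Finset.sum_fiberwise_of_maps_to (s := s) (t := s.image lam) (g := lam)
      (fun i hi => mem_image_of_mem lam hi)]
    refine Finset.sum_congr rfl fun l _ => Finset.sum_congr rfl fun i hi => ?_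
    rw [Finset.mem_filter] at hi
    rw [Finset.sum_filter]
    refine Finset.sum_congr rfl fun j hj => ?_
    by_cases h : lam j = l
    · rw [if_pos h, hext i hi.1 j hj (by rw [hi.2, h])]
    · rw [if_neg h, hext0 i j (by rw [hi.2]; exact fun e => h e.symm), mul_zero]
  rw [hsum]
  refine Finset.sum_nonneg fun l _ => ?_
  set A := s.filter (fun i => lam i = l) with hA
  have hi : ∀ m : ℤ, Integrable (fun x : UnitAddCircle => (fourier m x : ℂ)) ν := fun m =>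
    (by fun_prop : Continuous (fun x : UnitAddCircle =>
      (fourier m x : ℂ))).integrable_of_hasCompactSupport (HasCompactSupport.of_compactSpace _)
  have hfin : ∑ i ∈ A, ∑ j ∈ A, star (c j) * c i * ∫ x, (fourier (m i - m j) x : ℂ) ∂ν =
      ((∫ x, ‖∑ i ∈ A, c i * (fourier (m i) x : ℂ)‖ ^ 2 ∂ν : ℝ) : ℂ) := by
    rw [← integral_complex_ofReal]
    have hsq : ∀ x : UnitAddCircle, ((‖∑ i ∈ A, c i * (fourier (m i) x : ℂ)‖ ^ 2 : ℝ) : ℂ) =
        ∑ i ∈ A, ∑ j ∈ A, star (c j) * c i * fourier (m i - m j) x := by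
      intro x
      have e2 : ((‖∑ i ∈ A, c i * (fourier (m i) x : ℂ)‖ ^ 2 : ℝ) : ℂ) =
          (∑ i ∈ A, c i * (fourier (m i) x : ℂ)) *
          starRingEnd ℂ (∑ i ∈ A, c i * (fourier (m i) x : ℂ)) := by
        rw [Complex.mul_conj, Complex.normSq_eq_norm_sq]
      rw [e2, map_sum, Finset.sum_mul_sum]
      refine Finset.sum_congr rfl fun i _ => Finset.sum_congr rfl fun j _ => ?_
      rw [map_mul, ← fourier_neg, sub_eq_add_neg, fourier_add]
      simp only [Complex.star_def]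
      ring
    simp only [hsq]
    rw [integral_finsetSum]
    · refine Finset.sum_congr rfl fun i _ => ?_
      rw [integral_finsetSum]
      · refine Finset.sum_congr rfl fun j _ => ?_
        rw [integral_const_mul]
      · intro j _
        exact (hi _).const_mul _
    · intro i _
      exact integrable_finsetSum _ fun j _ => (hi _).const_mul _
  rw [hfin]
  have : (0 : ℝ) ≤ ∫ x, ‖∑ i ∈ A, c i * (fourier (m i) x : ℂ)‖ ^ 2 ∂ν :=
    integral_nonneg fun x => by positivity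
  exact_mod_cast this

include m2 m3 in
lemma ext_one [IsProbabilityMeasure ν] : ext G ν 1 = 1 := by
  rw [ext_trans m2 m3 (g := (1 : G)) (n := 0) (k := 0) (fun x => by simp)]
  simp

end

section

variable {G : Subgroup (Equiv.Perm ℚ)} {τ : ℤ → G} {φ : G → ℂ} {S6 : G} {μ : Measure UnitAddCircle}

/-- **Extreme atomless traces have ergodic measures.** -/
theorem erg_of_extreme (D : Data G τ φ S6 μ) (hat : ∀ x, μ {x} = 0)
    (hext : φ ∈ Set.extremePoints ℝ {ψ : G → ℂ | ψ 1 = 1 ∧ (∀ g h : G, ψ (h * g * h⁻¹) = ψ g) ∧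
        ∀ (s : Finset G) (c : G → ℂ), 0 ≤ ∑ i ∈ s, ∑ j ∈ s, star (c j) * c i * ψ (j⁻¹ * i)}) :
    JointErg (fun x : UnitAddCircle => 2 • x) (fun x : UnitAddCircle => 3 • x) μ := by
  have := D.prob
  intro E hE h2 h3
  by_contra hcon
  push Not at hcon
  obtain ⟨hE0, hE1⟩ := hcon
  -- the conditional measures
  have key : ∀ B : Set UnitAddCircle, MeasurableSet B →
      (fun x : UnitAddCircle => 2 • x) ⁻¹' B = B → (fun x : UnitAddCircle => 3 • x) ⁻¹' B = B →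
      μ B ≠ 0 → IsProbabilityMeasure ((μ B)⁻¹ • μ.restrict B) ∧
        MeasurePreserving (fun x : UnitAddCircle => 2 • x) ((μ B)⁻¹ • μ.restrict B)
          ((μ B)⁻¹ • μ.restrict B) ∧
        MeasurePreserving (fun x : UnitAddCircle => 3 • x) ((μ B)⁻¹ • μ.restrict B)
          ((μ B)⁻¹ • μ.restrict B) := by
    intro B hB hB2 hB3 hB0
    refine ⟨⟨?_⟩, ?_, ?_⟩
    · rw [Measure.smul_apply, Measure.restrict_apply_univ, smul_eq_mul]
      exact ENNReal.inv_mul_cancel hB0 (measure_ne_top _ _)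
    · have h := (D.mp2.restrict_preimage hB).smul_measure (μ B)⁻¹
      rwa [hB2] at h
    · have h := (D.mp3.restrict_preimage hB).smul_measure (μ B)⁻¹
      rwa [hB3] at h
  have hEc0 : μ Eᶜ ≠ 0 := by
    intro h
    exact hE1 ((prob_compl_eq_zero_iff hE).1 h)
  obtain ⟨p1, q1, r1⟩ := key E hE h2 h3 hE0
  obtain ⟨p2, q2, r2⟩ := key Eᶜ hE.compl (by rw [Set.preimage_compl, h2])
    (by rw [Set.preimage_compl, h3]) hEc0
  set μ1 := (μ E)⁻¹ • μ.restrict E with hμ1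
  set μ2 := (μ Eᶜ)⁻¹ • μ.restrict Eᶜ with hμ2
  have hT : ∀ (ν : Measure UnitAddCircle) [IsProbabilityMeasure ν],
      MeasurePreserving (fun x : UnitAddCircle => 2 • x) ν ν →
      MeasurePreserving (fun x : UnitAddCircle => 3 • x) ν ν →
      ext G ν ∈ {ψ : G → ℂ | ψ 1 = 1 ∧ (∀ g h : G, ψ (h * g * h⁻¹) = ψ g) ∧
        ∀ (s : Finset G) (c : G → ℂ), 0 ≤ ∑ i ∈ s, ∑ j ∈ s, star (c j) * c i * ψ (j⁻¹ * i)} :=
    fun ν _ n2 n3 => ⟨ext_one n2 n3, fun g h => ext_class n2 n3 D.hform g h, ext_pd n2 n3 D.hform⟩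
  set t : ℝ := μ.real E with ht
  have ht0 : 0 < t := ENNReal.toReal_pos hE0 (measure_ne_top _ _)
  have ht1 : t < 1 := by
    have h1 : μ E < 1 := lt_of_le_of_ne prob_le_one hE1
    have := (ENNReal.toReal_lt_toReal (measure_ne_top μ E) ENNReal.one_ne_top).2 h1
    rw [ENNReal.toReal_one] at this
    exact this
  have hi : ∀ m : ℤ, Integrable (fun x : UnitAddCircle => (fourier m x : ℂ)) μ := fun m =>
    (by fun_prop : Continuous (fun x : UnitAddCircle =>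
      (fourier m x : ℂ))).integrable_of_hasCompactSupport (HasCompactSupport.of_compactSpace _)
  have hdec : t • ext G μ1 + (1 - t) • ext G μ2 = φ := by
    funext g
    simp only [Pi.add_apply, Pi.smul_apply]
    by_cases hg : ∃ r : ℚ, ∀ x : ℚ, (g : Equiv.Perm ℚ) x = x + r
    · obtain ⟨r, hg⟩ := hg
      obtain ⟨n, k, hr⟩ := D.six hg
      rw [hr] at hg
      rw [ext_trans q1 r1 hg, ext_trans q2 r2 hg, phi_trans D.hτ D.hcl S6 D.hS6 g n k hg, ← D.hμ,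
        hμ1, hμ2, integral_smul_measure, integral_smul_measure]
      have e1 : t • ((μ E)⁻¹.toReal • ∫ x in E, (fourier n x : ℂ) ∂μ) =
          ∫ x in E, (fourier n x : ℂ) ∂μ := by
        rw [smul_smul, ENNReal.toReal_inv]
        have : t * (μ E).toReal⁻¹ = 1 := mul_inv_cancel₀ ht0.ne'
        rw [this, one_smul]
      have e2 : (1 - t) • ((μ Eᶜ)⁻¹.toReal • ∫ x in Eᶜ, (fourier n x : ℂ) ∂μ) =
          ∫ x in Eᶜ, (fourier n x : ℂ) ∂μ := by
        rw [smul_smul, ENNReal.toReal_inv]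
        have h4 : (μ Eᶜ).toReal = 1 - t := by
          have := prob_compl_eq_one_sub (μ := μ) hE
          rw [this, ENNReal.toReal_sub_of_le prob_le_one ENNReal.one_ne_top]
          simp [ht, measureReal_def]
        rw [h4]
        have : (1 - t) * (1 - t)⁻¹ = 1 := mul_inv_cancel₀ (by linarith)
        rw [this, one_smul]
      rw [e1, e2]
      exact integral_add_compl hE (hi n)
    · rw [ext_other hg, ext_other hg, smul_zero, smul_zero, add_zero, vanish D hat g hg]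
  have hseg : φ ∈ openSegment ℝ (ext G μ1) (ext G μ2) :=
    ⟨t, 1 - t, ht0, by linarith, by ring, hdec⟩
  have h5 := hext.2 (hT μ1 q1 r1) (hT μ2 q2 r2) hseg
  have h6 : μ1 = μ := by
    refine Pool.Agent.R202.ext_fourier fun n => ?_
    rw [D.hμ, ← h5, ext_trans q1 r1 (g := τ n) (n := n) (k := 0) (fun x => by rw [D.hτ]; simp)]
  have h7 : μ1 Eᶜ = 0 := by
    rw [hμ1, Measure.smul_apply, Measure.restrict_apply hE.compl]
    simp
  rw [h6] at h7
  exact hEc0 h7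

/-- powers of the dilations -/
lemma pow_apply {g : G} {c : ℚ} (hg : ∀ x, (g : Equiv.Perm ℚ) x = c * x) (i : ℕ) (x : ℚ) :
    ((g ^ i : G) : Equiv.Perm ℚ) x = c ^ i * x := by
  induction i generalizing x with
  | zero => simp
  | succ i ih =>
    rw [pow_succ, Subgroup.coe_mul, Equiv.Perm.mul_apply, ih, hg]
    ring

/-- the values of an atomless extreme trace are asymptotically multiplicative -/
theorem mult (D : Data G τ φ S6 μ)
    (herg : JointErg (fun x : UnitAddCircle => 2 • x) (fun x : UnitAddCircle => 3 • x) μ)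
    {S2 S3 : G} (hS2 : ∀ x : ℚ, (S2 : Equiv.Perm ℚ) x = 2 * x)
    (hS3 : ∀ x : ℚ, (S3 : Equiv.Perm ℚ) x = 3 * x) {g h : G}
    (hg : ∃ r : ℚ, ∀ x : ℚ, (g : Equiv.Perm ℚ) x = x + r)
    (hh : ∃ r : ℚ, ∀ x : ℚ, (h : Equiv.Perm ℚ) x = x + r) :
    Tendsto (fun K : ℕ × ℕ => (∑ i ∈ Finset.range K.1, ∑ j ∈ Finset.range K.2,
      φ ((S2 ^ i * g * (S2 ^ i)⁻¹) * (S3 ^ j * h * (S3 ^ j)⁻¹))) / ((K.1 : ℂ) * K.2)) atTop
      (𝓝 (φ g * φ h)) := by
  have := D.prob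
  obtain ⟨r, hg⟩ := hg
  obtain ⟨r', hh⟩ := hh
  obtain ⟨n, k, hr⟩ := D.six hg
  obtain ⟨n', k', hr'⟩ := D.six hh
  have e1 : φ g = ∫ x, (fourier (n * 6 ^ k') x : ℂ) ∂μ := by
    rw [D.hμ]
    refine phi_trans D.hτ D.hcl S6 D.hS6 g _ (k + k') fun x => ?_
    rw [hg, hr]
    push_cast
    rw [pow_add]
    field_simp
  have e2 : φ h = ∫ x, (fourier (n' * 6 ^ k) x : ℂ) ∂μ := by
    rw [D.hμ]
    refine phi_trans D.hτ D.hcl S6 D.hS6 h _ (k + k') fun x => ?_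
    rw [hh, hr']
    push_cast
    rw [pow_add]
    field_simp
  rw [e1, e2]
  refine (means_coeff 2 3 μ D.mp2 D.mp3 herg (n * 6 ^ k') (n' * 6 ^ k)).congr fun K => ?_
  congr 1
  refine Finset.sum_congr rfl fun i _ => Finset.sum_congr rfl fun j _ => ?_
  rw [D.hμ]
  symm
  refine phi_trans D.hτ D.hcl S6 D.hS6 _ _ (k + k') fun x => ?_
  have h1 := conj_trans hg (h := S2 ^ i) (lam := 2 ^ i) (s := 0)
    (fun x => by rw [pow_apply hS2, add_zero])
  have h2 := conj_trans hh (h := S3 ^ j) (lam := 3 ^ j) (s := 0)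
    (fun x => by rw [pow_apply hS3, add_zero])
  rw [Subgroup.coe_mul, Equiv.Perm.mul_apply, h1, h2, hr, hr']
  push_cast
  rw [pow_add]
  field_simp
  ring

end

/-- identification of a common image -/
theorem image {G : Subgroup (Equiv.Perm ℚ)} {τ τ' : ℤ → G} {φ ψ : G → ℂ} {S6 S6' : G}
    {μ ν : Measure UnitAddCircle} (D : Data G τ φ S6 μ) (D' : Data G τ' ψ S6' ν)
    (herg : JointErg (fun x : UnitAddCircle => 2 • x) (fun x : UnitAddCircle => 3 • x) μ) (a b : ℤ)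
    (hden : ∀ δ : ℝ, 0 < δ → ∃ᶠ K : ℕ × ℕ in atTop,
      ({k : ℕ × ℕ | (¬ ∀ g : G, (∃ r : ℚ, ∀ x : ℚ, (g : Equiv.Perm ℚ) x = x + r) →
        φ (g ^ (a * 2 ^ k.1 + b * 3 ^ k.2)) = ψ g) ∧ k.1 < K.1 ∧ k.2 < K.2}.ncard : ℝ) ≤
          δ * (K.1 * K.2)) (g : G) (hg : ∃ r : ℚ, ∀ x : ℚ, (g : Equiv.Perm ℚ) x = x + r) :
    ψ g = φ (g ^ a) * φ (g ^ b) := by
  have := D.prob
  have := D'.prob
  obtain ⟨r, hg⟩ := hg
  obtain ⟨n, k, hr⟩ := D.six hg
  have hval : ∀ m : ℤ, φ (g ^ m) = ∫ x, (fourier (m * n) x : ℂ) ∂μ := by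
    intro m
    rw [D.hμ]
    refine phi_trans D.hτ D.hcl S6 D.hS6 _ _ k fun z => ?_
    rw [zpow_apply hg, hr]
    push_cast; ring
  rw [hr] at hg
  rw [phi_trans D'.hτ D'.hcl S6' D'.hS6 g n k hg, ← D'.hμ, hval, hval]
  refine image_erg 2 3 μ D.mp2 D.mp3 herg a b ν (fun δ hδ => ?_) n
  refine (hden δ hδ).mono fun K hK => le_trans ?_ hK
  have hfin : {k : ℕ × ℕ | (¬ ∀ g : G, (∃ r : ℚ, ∀ x : ℚ, (g : Equiv.Perm ℚ) x = x + r) →
        φ (g ^ (a * 2 ^ k.1 + b * 3 ^ k.2)) = ψ g) ∧ k.1 < K.1 ∧ k.2 < K.2}.Finite := by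
    refine (Set.finite_Iio K.1).prod (Set.finite_Iio K.2) |>.subset ?_
    rintro ⟨i, j⟩ ⟨-, h1, h2⟩
    exact ⟨h1, h2⟩
  have hle := Set.ncard_le_ncard (s := {k : ℕ × ℕ | k ∈ {k : ℕ × ℕ |
      μ.map (fun x : UnitAddCircle => (a * ((2 : ℕ) : ℤ) ^ k.1 + b * ((3 : ℕ) : ℤ) ^ k.2) • x) ≠ ν} ∧
      k.1 < K.1 ∧ k.2 < K.2}) ?_ hfin
  · exact_mod_cast hle
  · rintro ⟨i, j⟩ ⟨h1, h2, h3⟩
    refine ⟨fun hcon => h1 ?_, h2, h3⟩
    exact map_eq D' D _ hcon

/-- **Sums of a power of 2 and a power of 3.** -/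
theorem main (s2 s3 t : Equiv.Perm ℚ) (hs2 : ∀ x : ℚ, s2 x = 2 * x) (hs3 : ∀ x : ℚ, s3 x = 3 * x)
    (ht : ∀ x : ℚ, t x = x + 1) (G : Subgroup (Equiv.Perm ℚ))
    (hG : G = Subgroup.closure {s2, s3, t}) (T : Set (G → ℂ))
    (hT : T = {ψ : G → ℂ | ψ 1 = 1 ∧ (∀ g h : G, ψ (h * g * h⁻¹) = ψ g) ∧
        ∀ (s : Finset G) (c : G → ℂ), 0 ≤ ∑ i ∈ s, ∑ j ∈ s, star (c j) * c i * ψ (j⁻¹ * i)})
    (φ : G → ℂ) (hext : φ ∈ Set.extremePoints ℝ T)
    (hfd : ¬ FiniteDimensional ℂ (Submodule.span ℂ {F : G → ℂ | ∃ n : G,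
          (∃ r : ℚ, ∀ x : ℚ, (n : Equiv.Perm ℚ) x = x + r) ∧ F = fun x => φ (n * x)}))
    (S2 S3 : G) (hS2 : (S2 : Equiv.Perm ℚ) = s2) (hS3 : (S3 : Equiv.Perm ℚ) = s3) :
    (∀ g h : G, (∃ r : ℚ, ∀ x : ℚ, (g : Equiv.Perm ℚ) x = x + r) →
      (∃ r : ℚ, ∀ x : ℚ, (h : Equiv.Perm ℚ) x = x + r) →
      Tendsto (fun K : ℕ × ℕ => (∑ i ∈ Finset.range K.1, ∑ j ∈ Finset.range K.2,
        φ ((S2 ^ i * g * (S2 ^ i)⁻¹) * (S3 ^ j * h * (S3 ^ j)⁻¹))) / ((K.1 : ℂ) * K.2)) atTop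
        (𝓝 (φ g * φ h))) ∧
    (∀ (a b : ℤ) (ψ : G → ℂ), ψ ∈ T →
      (∀ δ : ℝ, 0 < δ → ∃ᶠ K : ℕ × ℕ in atTop,
        ({k : ℕ × ℕ | (¬ ∀ g : G, (∃ r : ℚ, ∀ x : ℚ, (g : Equiv.Perm ℚ) x = x + r) →
          φ (g ^ (a * 2 ^ k.1 + b * 3 ^ k.2)) = ψ g) ∧ k.1 < K.1 ∧ k.2 < K.2}.ncard : ℝ) ≤
            δ * (K.1 * K.2)) →
      ∀ g : G, (∃ r : ℚ, ∀ x : ℚ, (g : Equiv.Perm ℚ) x = x + r) → ψ g = φ (g ^ a) * φ (g ^ b)) ∧
    ((∀ δ : ℝ, 0 < δ → ∃ᶠ K : ℕ × ℕ in atTop,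
        ({k : ℕ × ℕ | (¬ ∀ g : G, (∃ r : ℚ, ∀ x : ℚ, (g : Equiv.Perm ℚ) x = x + r) →
          φ (g ^ (2 ^ k.1 + 3 ^ k.2)) = φ g) ∧ k.1 < K.1 ∧ k.2 < K.2}.ncard : ℝ) ≤
            δ * (K.1 * K.2)) →
      φ = Set.indicator ({1} : Set G) (fun _ => (1 : ℂ))) := by
  subst hT
  obtain ⟨hφ1, hcl, hpd⟩ := hext.1
  obtain ⟨τ, S6, μ, D⟩ := data_of hs2 hs3 ht hG hφ1 hcl hpd
  have := D.prob
  rcases finite_or_atomless D hext with h | hat
  · exact absurd h hfd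
  have herg := erg_of_extreme D hat hext
  refine ⟨fun g h hg hh => mult D herg (fun x => by rw [hS2, hs2]) (fun x => by rw [hS3, hs3]) hg hh,
    ?_, ?_⟩
  · rintro a b ψ ⟨hψ1, hcl', hpd'⟩ hden g hg
    obtain ⟨τ', S6', ν, D'⟩ := data_of hs2 hs3 ht hG hψ1 hcl' hpd'
    exact image D D' herg a b hden g hg
  · intro hden
    have hidem := image D D herg 1 1 (by
      intro δ hδ
      have e : ∀ (k : ℕ × ℕ) (g : G),
          g ^ ((1 : ℤ) * 2 ^ k.1 + 1 * 3 ^ k.2) = g ^ (2 ^ k.1 + 3 ^ k.2 : ℕ) := by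
        intro k g
        rw [one_mul, one_mul, ← zpow_natCast]
        push_cast
        rfl
      simp only [e]
      exact hden δ hδ)
    have hz' : ∀ n : ℤ, n ≠ 0 → φ (τ n) = 0 := by
      intro n hn
      have h1 := hidem (τ n) ⟨n, D.hτ n⟩
      rw [zpow_one] at h1
      have h2 : φ (τ n) ≠ 1 := by
        rw [← D.hμ]
        exact coeff_ne_one μ hat hn
      have h3 : φ (τ n) * (1 - φ (τ n)) = 0 := by
        rw [mul_sub, mul_one, ← h1, sub_self]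
      rcases mul_eq_zero.1 h3 with h4 | h4
      · exact h4
      · exact absurd (sub_eq_zero.1 h4).symm h2
    funext g
    by_cases hg : g = 1
    · rw [hg, D.h1]
      simp
    · rw [eq_regular D.hτ D.h1 D.hcl D.hpd S6 D.hS6 D.hform hz' g hg]
      simp [hg]

end Pool.Agent.R481.TraceErg
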