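import Pool.Agent.R481.TraceBT
import Pool.Agent.Results.MP_96e181_an.FiniteSums

/-!
Finite sums of exponents and the tracial states of the group algebra of `ℤ² ⋉ ℤ[1/6]`.  The
inequality for measures on the circle is `Pool.Agent.Results.MP_96e181_an.FiniteSums.ineq`
(helper202).
-/

set_option autoImplicit false

open MeasureTheory Filter Topology Finset
open scoped ComplexOrder

namespace Pool.Agent.R481.TraceFS

open Pool.Agent.W763.Tr
open Pool.Agent.TH654.FC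
open Pool.Agent.TH463.UQ (finite_or_atomless)
open Pool.Agent.Results.MP_96e181_an.FiniteSums (hc ineq lim0 int_map)

section

variable {G : Subgroup (Equiv.Perm ℚ)} {τ τ' : ℤ → G} {φ ψ : G → ℂ} {S6 S6' : G}
  {μ ν : Measure UnitAddCircle}

lemma zpow_apply {g : G} {r : ℚ} (hg : ∀ x, (g : Equiv.Perm ℚ) x = x + r) (m : ℤ) (x : ℚ) :
    ((g ^ m : G) : Equiv.Perm ℚ) x = x + m * r := by
  have hpow : ∀ (n : ℕ) (x : ℚ), ((g ^ n : G) : Equiv.Perm ℚ) x = x + n * r := by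
    intro n
    induction n with
    | zero => intro x; simp
    | succ n ih =>
      intro x
      rw [pow_succ, Subgroup.coe_mul, Equiv.Perm.mul_apply, hg, ih]
      push_cast; ring
  rcases Int.eq_nat_or_neg m with ⟨n, rfl | rfl⟩
  · rw [zpow_natCast, hpow]; push_cast; rfl
  · rw [zpow_neg, zpow_natCast, Subgroup.coe_inv, Equiv.Perm.inv_eq_iff_eq, hpow]
    push_cast; ring

lemma tau_eq (D : Data G τ φ S6 μ) (D' : Data G τ' ψ S6' ν) (n : ℤ) : τ' n = τ n := by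
  apply Subtype.ext
  apply Equiv.ext
  intro x
  rw [D.hτ, D'.hτ]

/-- equality of the values on powers as an equality of image measures -/
lemma map_eq (D : Data G τ φ S6 μ) (D' : Data G τ' ψ S6' ν) (m : ℤ)
    (h : ∀ g : G, (∃ r : ℚ, ∀ x : ℚ, (g : Equiv.Perm ℚ) x = x + r) → ψ (g ^ m) = φ g) :
    ν.map (fun x : UnitAddCircle => m • x) = μ := by
  have := D.prob
  have := D'.prob
  have hmeas : Measurable fun x : UnitAddCircle => m • x := (continuous_zsmul m).measurable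
  have : IsProbabilityMeasure (ν.map (fun x : UnitAddCircle => m • x)) :=
    Measure.isProbabilityMeasure_map hmeas.aemeasurable
  refine Pool.Agent.R202.ext_fourier fun n => ?_
  rw [integral_map hmeas.aemeasurable (fourier n).continuous.aestronglyMeasurable, D.hμ]
  have h1 := h (τ n) ⟨n, D.hτ n⟩
  rw [← h1]
  have h2 : ψ (τ n ^ m) = ψ (τ' (m * n)) := by
    congr 1
    apply Subtype.ext
    apply Equiv.ext
    intro x
    rw [zpow_apply (D.hτ n), D'.hτ]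
    push_cast; ring
  rw [h2, ← D'.hμ]
  refine integral_congr_ae (Eventually.of_forall fun x => ?_)
  simp only
  rw [fourier_apply, fourier_apply, smul_smul, mul_comm]

/-- the power mean of `|cos (π n x)|` as a combination of Fourier coefficients -/
lemma cos_pow (n : ℤ) (L : ℕ) (x : UnitAddCircle) :
    ((hc n x ^ (2 * L) : ℝ) : ℂ) =
      (∑ i ∈ range (2 * L + 1), ((2 * L).choose i : ℂ) * fourier (n * ((i : ℤ) - L)) x) / 4 ^ L := by
  have h1 : ((hc n x ^ 2 : ℝ) : ℂ) = fourier (-n) x * (1 + (fourier n x : ℂ)) ^ 2 / 4 := by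
    unfold hc
    have e : (((‖(1 + (fourier n x : ℂ)) / 2‖ ^ 2 : ℝ)) : ℂ) =
        ((1 + (fourier n x : ℂ)) / 2) * starRingEnd ℂ ((1 + (fourier n x : ℂ)) / 2) := by
      rw [Complex.mul_conj, Complex.normSq_eq_norm_sq]
    rw [e, map_div₀, map_add, map_one, Complex.conj_ofNat, ← fourier_neg]
    have h2 : (fourier (-n) x : ℂ) * fourier n x = 1 := by
      rw [← fourier_add, neg_add_cancel, fourier_zero]
    linear_combination (-(1 + (fourier n x : ℂ)) / 4 + 1/4 * (1 + fourier n x)) * h2 +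
      (-(1:ℂ)/4 * (1 + (fourier n x : ℂ))) * h2
  rw [pow_mul, Complex.ofReal_pow, h1, div_pow, mul_pow, ← pow_mul]
  congr 1
  rw [add_comm (1 : ℂ), add_pow, Finset.mul_sum]
  refine Finset.sum_congr rfl fun i hi => ?_
  rw [one_pow, mul_one]
  have h8 : ∀ (m : ℤ) (k : ℕ), (fourier (m * k) x : ℂ) = (fourier m x : ℂ) ^ k := by
    intro m k
    induction k with
    | zero => simp
    | succ k ih =>
      rw [pow_succ, ← ih, ← fourier_add]
      congr 2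
      push_cast; ring_nf
  rw [← h8, ← h8, show n * ((i : ℤ) - L) = -n * (L : ℤ) + n * (i : ℤ) by ring, fourier_add]
  ring

/-- the inequality for two traces -/
lemma ineq_trace (D : Data G τ φ S6 μ) (D' : Data G τ' ψ S6' ν) {L : ℕ} (hL : 0 < L)
    (a : Fin (2 * L) → ℤ)
    (h : ∀ F : Finset (Fin (2 * L)), F.Nonempty → ∀ g : G,
      (∃ r : ℚ, ∀ x : ℚ, (g : Equiv.Perm ℚ) x = x + r) → ψ (g ^ (∑ i ∈ F, a i)) = φ g)
    (g : G) (hg : ∃ r : ℚ, ∀ x : ℚ, (g : Equiv.Perm ℚ) x = x + r) :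
    (‖φ g‖ : ℂ) ≤ 2 / 4 ^ L +
      (∑ i ∈ range (2 * L + 1), ((2 * L).choose i : ℂ) * φ (g ^ ((i : ℤ) - L))) / 4 ^ L := by
  have := D.prob
  have := D'.prob
  obtain ⟨r, hg⟩ := hg
  obtain ⟨n, k, hr⟩ := D.six hg
  have hval : ∀ m : ℤ, φ (g ^ m) = ∫ x, (fourier (n * m) x : ℂ) ∂μ := by
    intro m
    rw [D.hμ]
    refine phi_trans D.hτ D.hcl S6 D.hS6 _ _ k fun z => ?_
    rw [zpow_apply hg, hr]
    push_cast; ring
  have h1 := ineq ν μ (2 * L) (by omega) a (fun F hF => map_eq D D' _ (h F hF)) n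
  have hi : ∀ m : ℤ, Integrable (fun x : UnitAddCircle => (fourier m x : ℂ)) μ := fun m =>
    (by fun_prop : Continuous (fun x : UnitAddCircle =>
      (fourier m x : ℂ))).integrable_of_hasCompactSupport (HasCompactSupport.of_compactSpace _)
  have h2 : ((∫ x, hc n x ^ (2 * L) ∂μ : ℝ) : ℂ) =
      (∑ i ∈ range (2 * L + 1), ((2 * L).choose i : ℂ) * φ (g ^ ((i : ℤ) - L))) / 4 ^ L := by
    rw [← integral_complex_ofReal]
    simp_rw [cos_pow]
    rw [integral_div, integral_finsetSum]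
    · simp_rw [hval, integral_const_mul]
    · intro i _
      exact (hi _).const_mul _
  rw [← h2]
  have h3 : φ g = ∫ x, (fourier n x : ℂ) ∂μ := by
    have := hval 1
    rwa [zpow_one, mul_one] at this
  rw [h3]
  have h4 : (2 : ℝ) / 2 ^ (2 * L) = 2 / 4 ^ L := by
    rw [pow_mul]; norm_num
  rw [h4] at h1
  have h5 : ((‖∫ x, (fourier n x : ℂ) ∂μ‖ : ℝ) : ℂ) ≤
      ((2 / 4 ^ L + ∫ x, hc n x ^ (2 * L) ∂μ : ℝ) : ℂ) := by exact_mod_cast h1
  refine h5.trans (le_of_eq ?_)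
  push_cast
  ring

/-- an atomless trace whose values are preserved by all the finite sums of arbitrarily long families
is regular -/
lemma regular_of_sums (D : Data G τ φ S6 μ) (hat : ∀ x, μ {x} = 0)
    (h : ∀ K : ℕ, 0 < K → ∃ (ν : Measure UnitAddCircle) (_ : IsProbabilityMeasure ν)
      (a : Fin K → ℤ), ∀ F : Finset (Fin K), F.Nonempty →
        ν.map (fun x : UnitAddCircle => (∑ i ∈ F, a i) • x) = μ) :
    φ = Set.indicator ({1} : Set G) (fun _ => (1 : ℂ)) := by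
  have := D.prob
  have hz' : ∀ n : ℤ, n ≠ 0 → φ (τ n) = 0 := by
    intro n hn
    rw [← D.hμ]
    have h1 := lim0 μ hat hn
    have h2 : ‖∫ x, (fourier n x : ℂ) ∂μ‖ ≤ 0 := by
      refine ge_of_tendsto h1 ?_
      filter_upwards [eventually_gt_atTop 0] with K hK
      obtain ⟨ν, hν, a, ha⟩ := h K hK
      exact ineq ν μ K hK a ha n
    exact norm_le_zero_iff.1 h2
  funext g
  by_cases hg : g = 1
  · rw [hg, D.h1]
    simp
  · rw [eq_regular D.hτ D.h1 D.hcl D.hpd S6 D.hS6 D.hform hz' g hg]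
    simp [hg]

end

/-- **Finite sums of exponents.** -/
theorem main (s2 s3 t : Equiv.Perm ℚ) (hs2 : ∀ x : ℚ, s2 x = 2 * x) (hs3 : ∀ x : ℚ, s3 x = 3 * x)
    (ht : ∀ x : ℚ, t x = x + 1) (G : Subgroup (Equiv.Perm ℚ))
    (hG : G = Subgroup.closure {s2, s3, t}) (T : Set (G → ℂ))
    (hT : T = {ψ : G → ℂ | ψ 1 = 1 ∧ (∀ g h : G, ψ (h * g * h⁻¹) = ψ g) ∧
        ∀ (s : Finset G) (c : G → ℂ), 0 ≤ ∑ i ∈ s, ∑ j ∈ s, star (c j) * c i * ψ (j⁻¹ * i)}) :
    (∀ φ ∈ Set.extremePoints ℝ T, φ ≠ Set.indicator ({1} : Set G) (fun _ => (1 : ℂ)) →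
      ¬ FiniteDimensional ℂ (Submodule.span ℂ {F : G → ℂ | ∃ n : G,
          (∃ r : ℚ, ∀ x : ℚ, (n : Equiv.Perm ℚ) x = x + r) ∧ F = fun x => φ (n * x)}) →
      ∃ K : ℕ, 0 < K ∧ ∀ ψ ∈ T, ∀ a : Fin K → ℤ, ∃ F : Finset (Fin K), F.Nonempty ∧
        ∃ g : G, (∃ r : ℚ, ∀ x : ℚ, (g : Equiv.Perm ℚ) x = x + r) ∧
          ψ (g ^ (∑ i ∈ F, a i)) ≠ φ g) ∧
    (∀ φ ∈ T, ∀ ψ ∈ T, ∀ L : ℕ, 0 < L → ∀ a : Fin (2 * L) → ℤ,
      (∀ F : Finset (Fin (2 * L)), F.Nonempty → ∀ g : G,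
        (∃ r : ℚ, ∀ x : ℚ, (g : Equiv.Perm ℚ) x = x + r) → ψ (g ^ (∑ i ∈ F, a i)) = φ g) →
      ∀ g : G, (∃ r : ℚ, ∀ x : ℚ, (g : Equiv.Perm ℚ) x = x + r) →
        (‖φ g‖ : ℂ) ≤ 2 / 4 ^ L +
          (∑ i ∈ range (2 * L + 1), ((2 * L).choose i : ℂ) * φ (g ^ ((i : ℤ) - L))) / 4 ^ L) := by
  subst hT
  constructor
  · intro φ hext hreg hfd
    by_contra hcon
    push Not at hcon
    obtain ⟨hφ1, hcl, hpd⟩ := hext.1
    obtain ⟨τ, S6, μ, D⟩ := data_of hs2 hs3 ht hG hφ1 hcl hpd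
    rcases finite_or_atomless D hext with h | hat
    · exact hfd h
    · refine hreg (regular_of_sums D hat fun K hK => ?_)
      obtain ⟨ψ, hψ, a, ha⟩ := hcon K hK
      obtain ⟨hψ1, hcl', hpd'⟩ := hψ
      obtain ⟨τ', S6', ν, D'⟩ := data_of hs2 hs3 ht hG hψ1 hcl' hpd'
      exact ⟨ν, D'.prob, a, fun F hF => map_eq D D' _ fun g hg => ha F hF g hg⟩
  · intro φ hφ ψ hψ L hL a h g hg
    obtain ⟨hφ1, hcl, hpd⟩ := hφ
    obtain ⟨τ, S6, μ, D⟩ := data_of hs2 hs3 ht hG hφ1 hcl hpd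
    obtain ⟨hψ1, hcl', hpd'⟩ := hψ
    obtain ⟨τ', S6', ν, D'⟩ := data_of hs2 hs3 ht hG hψ1 hcl' hpd'
    exact ineq_trace D D' hL a h g hg

end Pool.Agent.R481.TraceFS
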