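import Pool.Agent.R481.TraceFS

/-!
# Finite sums of exponents and the extreme traces of `C*(ℤ² ⋉ ℤ[1/6])`

Let `G` be the group generated by `x ↦ 2 x`, `x ↦ 3 x`, `x ↦ x + 1` on `ℚ`, a copy of
`ℤ² ⋉ ℤ[1/6]`.  The tracial states of `C*(G)` are the normalised positive definite class functions
on `G` (the set `T`).  The inequality for measures on the circle on which this rests is due to
helper202 (`Pool.Agent.Results.MP_96e181_an.FiniteSums`).
-/

set_option autoImplicit false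

open Finset
open scoped ComplexOrder

namespace Pool.Agent.R481.TraceFSResult

/-- **Finite sums of exponents.**  (1) Let `φ` be an extreme tracial state of `C*(G)` which is
neither regular nor conditionally finite-dimensional.  Then there is `K` such that for EVERY tracial
state `ψ` (extreme or not, for instance `ψ = φ`) and all integers `a_1, ..., a_K` some nonempty
subfamily has a sum `m` with `ψ (g ^ m) ≠ φ (g)` for some translation `g`.  In particular the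
exponents `m` with `φ (g ^ m) = φ (g)` for all translations `g` do not contain all the sums of
distinct terms of arbitrarily long finite sequences.  (2) The inequality behind it, for all tracial
states: if `ψ (g ^ m) = φ (g)` for all the translations `g` and all the sums `m` of nonempty
subfamilies of some integers `a_1, ..., a_(2 L)`, then
`|φ (g)| ≤ 2 / 4 ^ L + 4 ^ (-L) ∑_{|j| ≤ L} C(2 L, L + j) φ (g ^ j)` for all translations `g`. -/
theorem result (s2 s3 t : Equiv.Perm ℚ) (hs2 : ∀ x : ℚ, s2 x = 2 * x) (hs3 : ∀ x : ℚ, s3 x = 3 * x)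
    (ht : ∀ x : ℚ, t x = x + 1) (G : Subgroup (Equiv.Perm ℚ))
    (hG : G = Subgroup.closure {s2, s3, t}) (T : Set (G → ℂ))
    (hT : T = {ψ : G → ℂ | ψ 1 = 1 ∧ (∀ g h : G, ψ (h * g * h⁻¹) = ψ g) ∧
        ∀ (s : Finset G) (c : G → ℂ), 0 ≤ ∑ i ∈ s, ∑ j ∈ s, star (c j) * c i * ψ (j⁻¹ * i)}) :
    (∀ φ ∈ Set.extremePoints ℝ T, φ ≠ Set.indicator ({1} : Set G) (fun _ => (1 : ℂ)) →
      ¬ FiniteDimensional ℂ (Submodule.span ℂ {F : G → ℂ | ∃ n : G,
          (∃ r : ℚ, ∀ x : ℚ, (n : Equiv.Perm ℚ) x = x + r) ∧ F = fun x => φ (n * x)}) →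
      ∃ K : ℕ, 0 < K ∧ ∀ ψ ∈ T, ∀ a : Fin K → ℤ, ∃ F : Finset (Fin K), F.Nonempty ∧
        ∃ g : G, (∃ r : ℚ, ∀ x : ℚ, (g : Equiv.Perm ℚ) x = x + r) ∧
          ψ (g ^ (∑ i ∈ F, a i)) ≠ φ g) ∧
    (∀ φ ∈ T, ∀ ψ ∈ T, ∀ L : ℕ, 0 < L → ∀ a : Fin (2 * L) → ℤ,
      (∀ F : Finset (Fin (2 * L)), F.Nonempty → ∀ g : G,
        (∃ r : ℚ, ∀ x : ℚ, (g : Equiv.Perm ℚ) x = x + r) → ψ (g ^ (∑ i ∈ F, a i)) = φ g) →
      ∀ g : G, (∃ r : ℚ, ∀ x : ℚ, (g : Equiv.Perm ℚ) x = x + r) →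
        (‖φ g‖ : ℂ) ≤ 2 / 4 ^ L +
          (∑ i ∈ range (2 * L + 1), ((2 * L).choose i : ℂ) * φ (g ^ ((i : ℤ) - L))) / 4 ^ L) :=
  Pool.Agent.R481.TraceFS.main s2 s3 t hs2 hs3 ht G hG T hT

end Pool.Agent.R481.TraceFSResult
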