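import Pool.Agent.R481.TraceFS
import Pool.Agent.Results.MP_96e181_an.SumsetDecay

/-!
Sums of many exponents and the tracial states of the group algebra of `ℤ² ⋉ ℤ[1/6]`.  The
method for measures on the circle is that of `Pool.Agent.Results.MP_96e181_an.SumsetDecay`
(helper202).
-/

set_option autoImplicit false

open MeasureTheory Filter Topology Set
open scoped ENNReal ComplexOrder

namespace Pool.Agent.R481.TraceSS

open Pool.Agent.Results.MP_96e181_an.SumsetDecay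

/-- the coefficients at shifted sums and the power mean of the exponential sum -/
theorem sum_le_mean (μ : Measure UnitAddCircle) [IsProbabilityMeasure μ] (n t : ℤ) (w : ℕ)
    (hw : MeasurePreserving (fun x : UnitAddCircle => w • x) μ μ) (S : Finset ℕ) (r : ℕ) :
    ∑ f ∈ Fintype.piFinset (fun _ : Fin r => S),
        ‖∫ x, (fourier (n * w * ((∑ i, f i : ℕ) : ℤ) + t) x : ℂ) ∂μ‖ ^ 2 ≤
      ∫ z : UnitAddCircle × UnitAddCircle,
        ‖∑ s ∈ S, (fourier n (s • (z.1 - z.2)) : ℂ)‖ ^ r ∂(μ.prod μ) := by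
  classical
  have hid : ((∑ f ∈ Fintype.piFinset (fun _ : Fin r => S),
        ‖∫ x, (fourier (n * w * ((∑ i, f i : ℕ) : ℤ) + t) x : ℂ) ∂μ‖ ^ 2 : ℝ) : ℂ) =
      ∫ z : UnitAddCircle × UnitAddCircle, (fourier t (z.1 - z.2) : ℂ) *
        (∑ s ∈ S, (fourier (n * w) (s • (z.1 - z.2)) : ℂ)) ^ r ∂(μ.prod μ) := by
    simp_rw [pow_expand, Finset.mul_sum]
    rw [integral_finsetSum]
    · push_cast
      refine Finset.sum_congr rfl fun f _ => ?_
      have h1 := sq_coeff μ (n * w * ((∑ i, f i : ℕ) : ℤ) + t)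
      push_cast at h1
      rw [← h1]
      refine integral_congr_ae (Eventually.of_forall fun z => ?_)
      simp only
      rw [fourier_add, mul_comm]
    · intro f _
      refine Integrable.of_bound (C := 1) ?_ (Eventually.of_forall fun z => ?_)
      · exact (((fourier _).continuous.comp (continuous_fst.sub continuous_snd)).mul
          ((fourier _).continuous.comp (continuous_fst.sub continuous_snd))).aestronglyMeasurable
      · rw [norm_mul, norm_fourier, norm_fourier, one_mul]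
  have hnn : 0 ≤ ∑ f ∈ Fintype.piFinset (fun _ : Fin r => S),
        ‖∫ x, (fourier (n * w * ((∑ i, f i : ℕ) : ℤ) + t) x : ℂ) ∂μ‖ ^ 2 :=
    Finset.sum_nonneg fun _ _ => sq_nonneg _
  have h1 : ∑ f ∈ Fintype.piFinset (fun _ : Fin r => S),
        ‖∫ x, (fourier (n * w * ((∑ i, f i : ℕ) : ℤ) + t) x : ℂ) ∂μ‖ ^ 2 =
      ‖∫ z : UnitAddCircle × UnitAddCircle, (fourier t (z.1 - z.2) : ℂ) *
        (∑ s ∈ S, (fourier (n * w) (s • (z.1 - z.2)) : ℂ)) ^ r ∂(μ.prod μ)‖ := by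
    rw [← hid, Complex.norm_real, Real.norm_of_nonneg hnn]
  rw [h1]
  have hcont : Continuous fun z : UnitAddCircle × UnitAddCircle =>
      ‖∑ s ∈ S, (fourier n (s • (z.1 - z.2)) : ℂ)‖ ^ r := by
    refine (Continuous.norm (continuous_finsetSum _ fun s _ => ?_)).pow r
    exact (fourier n).continuous.comp ((continuous_nsmul s).comp (continuous_fst.sub continuous_snd))
  have h3 : ∫ z : UnitAddCircle × UnitAddCircle,
        ‖∑ s ∈ S, (fourier n (s • (z.1 - z.2)) : ℂ)‖ ^ r ∂(μ.prod μ) =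
      ∫ z : UnitAddCircle × UnitAddCircle,
        ‖∑ s ∈ S, (fourier (n * w) (s • (z.1 - z.2)) : ℂ)‖ ^ r ∂(μ.prod μ) := by
    have h4 := integral_map (μ := μ.prod μ) (φ := Prod.map (fun x : UnitAddCircle => w • x)
      (fun x : UnitAddCircle => w • x)) (hw.prod hw).measurable.aemeasurable
      (f := fun z : UnitAddCircle × UnitAddCircle =>
        ‖∑ s ∈ S, (fourier n (s • (z.1 - z.2)) : ℂ)‖ ^ r) hcont.aestronglyMeasurable
    rw [(hw.prod hw).map_eq] at h4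
    rw [h4]
    refine integral_congr_ae (Eventually.of_forall fun z => ?_)
    simp only [Prod.map_fst, Prod.map_snd]
    congr 2
    refine Finset.sum_congr rfl fun s _ => ?_
    rw [← smul_sub, fourier_apply, fourier_apply, mul_smul, natCast_zsmul, smul_comm w s]
  rw [h3]
  refine (norm_integral_le_integral_norm _).trans (le_of_eq ?_)
  refine integral_congr_ae (Eventually.of_forall fun z => ?_)
  simp only
  rw [norm_mul, norm_fourier, one_mul, norm_pow]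

/-- the power mean of the exponential sum -/
theorem mean_le (μ : Measure UnitAddCircle) [IsProbabilityMeasure μ] (n : ℤ) {p : ℕ}
    (hp : 2 ≤ p) {θ κ : ℝ} (hθ : 0 < θ) (hκ : 0 < κ) (hκθ : κ * θ / 16 ≤ 1) (S : Finset ℕ)
    (hne : S.Nonempty) (hinv : ∀ s ∈ S, MeasurePreserving (fun x : UnitAddCircle => s • x) μ μ)
    (hS : θ * S.card ≤ (S.filter (fun s => p * s ∈ S)).card) (r : ℕ) :
    ∫ z : UnitAddCircle × UnitAddCircle,
        ‖∑ s ∈ S, (fourier n (s • (z.1 - z.2)) : ℂ)‖ ^ r ∂(μ.prod μ) ≤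
      ((1 - κ * θ / 16) ^ r +
        2 / θ * (μ.prod μ).real {z : UnitAddCircle × UnitAddCircle | psi n p (z.1 - z.2) < κ}) *
          (S.card : ℝ) ^ r := by
  classical
  set B := {z : UnitAddCircle × UnitAddCircle |
      (1 - κ * θ / 16) * S.card ≤ ‖∑ s ∈ S, (fourier n (s • (z.1 - z.2)) : ℂ)‖} with hB
  have hbad := bad_small μ n hp hθ hκ S hne hinv hS
  rw [← hB] at hbad
  have hsumc : Continuous fun z : UnitAddCircle × UnitAddCircle =>
      ∑ s ∈ S, (fourier n (s • (z.1 - z.2)) : ℂ) := by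
    refine continuous_finsetSum _ fun s _ => ?_
    exact (fourier n).continuous.comp ((continuous_nsmul s).comp (continuous_fst.sub continuous_snd))
  have hBm : MeasurableSet B := (isClosed_le continuous_const hsumc.norm).measurableSet
  have hle : ∀ z : UnitAddCircle × UnitAddCircle,
      ‖∑ s ∈ S, (fourier n (s • (z.1 - z.2)) : ℂ)‖ ≤ S.card := by
    intro z
    calc ‖∑ s ∈ S, (fourier n (s • (z.1 - z.2)) : ℂ)‖ ≤ ∑ s ∈ S, ‖(fourier n (s • (z.1 - z.2)) : ℂ)‖ :=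
          norm_sum_le _ _
      _ = S.card := by simp_rw [norm_fourier]; simp
  -- the pointwise bound
  have hpt : ∀ z : UnitAddCircle × UnitAddCircle,
      ‖∑ s ∈ S, (fourier n (s • (z.1 - z.2)) : ℂ)‖ ^ r ≤
        (1 - κ * θ / 16) ^ r * (S.card : ℝ) ^ r + B.indicator (fun _ => (S.card : ℝ) ^ r) z := by
    intro z
    by_cases hz : z ∈ B
    · rw [indicator_of_mem hz]
      have h2 : ‖∑ s ∈ S, (fourier n (s • (z.1 - z.2)) : ℂ)‖ ^ r ≤ (S.card : ℝ) ^ r :=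
        pow_le_pow_left₀ (norm_nonneg _) (hle z) r
      have h3 : 0 ≤ (1 - κ * θ / 16) ^ r * (S.card : ℝ) ^ r :=
        mul_nonneg (pow_nonneg (by linarith) _) (by positivity)
      linarith
    · rw [indicator_of_notMem hz, add_zero, ← mul_pow]
      have h2 : ‖∑ s ∈ S, (fourier n (s • (z.1 - z.2)) : ℂ)‖ < (1 - κ * θ / 16) * S.card := not_le.1 hz
      exact pow_le_pow_left₀ (norm_nonneg _) h2.le r
  have hI1 : Integrable (B.indicator fun _ => (S.card : ℝ) ^ r) (μ.prod μ) :=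
    (integrable_const _).indicator hBm
  calc ∫ z : UnitAddCircle × UnitAddCircle,
        ‖∑ s ∈ S, (fourier n (s • (z.1 - z.2)) : ℂ)‖ ^ r ∂(μ.prod μ)
      ≤ ∫ z : UnitAddCircle × UnitAddCircle, ((1 - κ * θ / 16) ^ r * (S.card : ℝ) ^ r +
          B.indicator (fun _ => (S.card : ℝ) ^ r) z) ∂(μ.prod μ) :=
        integral_mono_of_nonneg (Eventually.of_forall fun z => by positivity)
          ((integrable_const _).add hI1) (Eventually.of_forall hpt)
    _ = (1 - κ * θ / 16) ^ r * (S.card : ℝ) ^ r + (μ.prod μ).real B * (S.card : ℝ) ^ r := by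
        rw [integral_add (integrable_const _) hI1, integral_indicator hBm, setIntegral_const,
          integral_const, probReal_univ, one_smul, smul_eq_mul]
    _ ≤ _ := by
        have h4 : (μ.prod μ).real B * (S.card : ℝ) ^ r ≤ (2 / θ * (μ.prod μ).real
            {z : UnitAddCircle × UnitAddCircle | psi n p (z.1 - z.2) < κ}) * (S.card : ℝ) ^ r :=
          mul_le_mul_of_nonneg_right hbad (by positivity)
        rw [add_mul]
        linarith

/-- the decay of the shifted coefficients, uniformly in the shift and in the multiplier `w` -/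
theorem decay_shift (μ : Measure UnitAddCircle) [IsProbabilityMeasure μ] (hna : ∀ x, μ {x} = 0)
    {p : ℕ} (hp : 2 ≤ p) {n : ℤ} (hn : n ≠ 0) {θ ε : ℝ} (hθ : 0 < θ) (hε : 0 < ε) :
    ∃ r₀ : ℕ, ∀ r, r₀ ≤ r → ∀ S : Finset ℕ, S.Nonempty →
      (∀ s ∈ S, MeasurePreserving (fun x : UnitAddCircle => s • x) μ μ) →
      θ * S.card ≤ (S.filter (fun s => p * s ∈ S)).card → ∀ (w : ℕ) (t : ℤ),
      MeasurePreserving (fun x : UnitAddCircle => w • x) μ μ →
      ∑ f ∈ Fintype.piFinset (fun _ : Fin r => S),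
        ‖∫ x, (fourier (n * w * ((∑ i, f i : ℕ) : ℤ) + t) x : ℂ) ∂μ‖ ^ 2 ≤
          ε * (S.card : ℝ) ^ r := by
  set θ' := min θ 1 with hθ'
  have hθ'0 : 0 < θ' := lt_min hθ one_pos
  have hθ'1 : θ' ≤ 1 := min_le_right _ _
  obtain ⟨κ, hκ, hκ1, hD⟩ := psi_small μ hna hn hp (δ := ε * θ' / 4) (by positivity)
  have hq0 : 0 ≤ 1 - κ * θ' / 16 := by nlinarith
  have hq1 : 1 - κ * θ' / 16 < 1 := by
    have : 0 < κ * θ' / 16 := by positivity
    linarith
  obtain ⟨r₀, hr₀⟩ := ((tendsto_pow_atTop_nhds_zero_of_lt_one hq0 hq1).eventually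
    (gt_mem_nhds (half_pos hε))).exists_forall_of_atTop
  refine ⟨r₀, fun r hr S hne hinv hS w t hw => ?_⟩
  have hS' : θ' * S.card ≤ (S.filter (fun s => p * s ∈ S)).card := by
    refine le_trans ?_ hS
    exact mul_le_mul_of_nonneg_right (min_le_left _ _) (by positivity)
  have h := (sum_le_mean μ n t w hw S r).trans
    (mean_le μ n hp hθ'0 hκ (by linarith) S hne hinv hS' r)
  refine h.trans (mul_le_mul_of_nonneg_right ?_ (by positivity))
  have h1 := hr₀ r hr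
  have h2 : 2 / θ' * (μ.prod μ).real {z : UnitAddCircle × UnitAddCircle | psi n p (z.1 - z.2) < κ} ≤
      2 / θ' * (ε * θ' / 4) := mul_le_mul_of_nonneg_left hD.le (by positivity)
  have h3 : 2 / θ' * (ε * θ' / 4) = ε / 2 := by
    field_simp
    ring
  linarith

open Pool.Agent.W763.Tr
open Pool.Agent.TH654.FC
open Pool.Agent.TH463.UQ (finite_or_atomless)
open Pool.Agent.R481.TraceBT (vanish)
open Pool.Agent.R481.TraceFS (zpow_apply map_eq)

section

variable {G : Subgroup (Equiv.Perm ℚ)} {τ : ℤ → G} {φ : G → ℂ} {S6 : G} {μ : Measure UnitAddCircle}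

/-- exponents preserving the trace give invariance of the measure -/
lemma mp_of (D : Data G τ φ S6 μ) {s : ℕ}
    (h : ∀ g : G, (∃ r : ℚ, ∀ x : ℚ, (g : Equiv.Perm ℚ) x = x + r) → φ (g ^ s) = φ g) :
    MeasurePreserving (fun x : UnitAddCircle => s • x) μ μ := by
  refine ⟨(continuous_nsmul s).measurable, ?_⟩
  have h1 := map_eq D D (s : ℤ) (fun g hg => by rw [zpow_natCast]; exact h g hg)
  simpa only [natCast_zsmul] using h1

lemma mp_six (D : Data G τ φ S6 μ) (j : ℕ) :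
    MeasurePreserving (fun x : UnitAddCircle => (6 ^ j : ℕ) • x) μ μ := by
  have := D.prob
  refine mp_nsmul D.hμ fun n => ?_
  rw [mul_comm]
  induction j with
  | zero => simp
  | succ j ih =>
    rw [pow_succ, show (((6 ^ j * 6 : ℕ) : ℤ) * n) = 2 * (3 * (((6 ^ j : ℕ) : ℤ) * n)) by
      push_cast; ring, D.h2, D.h3, ih]

/-- the decay for an atomless trace -/
theorem trace_decay (D : Data G τ φ S6 μ) (hat : ∀ x, μ {x} = 0) {g : G} (hg1 : g ≠ 1)
    (hg : ∃ r : ℚ, ∀ z : ℚ, (g : Equiv.Perm ℚ) z = z + r) {p : ℕ} (hp : 2 ≤ p) {θ ε : ℝ}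
    (hθ : 0 < θ) (hε : 0 < ε) :
    ∃ r₀ : ℕ, ∀ r, r₀ ≤ r → ∀ S : Finset ℕ, S.Nonempty →
      (∀ s ∈ S, ∀ h : G, (∃ r : ℚ, ∀ x : ℚ, (h : Equiv.Perm ℚ) x = x + r) → φ (h ^ s) = φ h) →
      θ * S.card ≤ (S.filter (fun s => p * s ∈ S)).card → ∀ x y : G,
      ∑ f ∈ Fintype.piFinset (fun _ : Fin r => S), ‖φ (x * g ^ (∑ i, f i) * y)‖ ^ 2 ≤
        ε * (S.card : ℝ) ^ r := by
  have := D.prob
  obtain ⟨r, hg⟩ := hg
  have hpow : ∀ c : ℕ, ∀ z, ((g ^ c : G) : Equiv.Perm ℚ) z = z + c * r := by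
    intro c z
    have := zpow_apply hg (c : ℤ) z
    rw [zpow_natCast] at this
    rw [this]; push_cast; rfl
  obtain ⟨m, k, hr⟩ := D.six hg
  have hm : m ≠ 0 := by
    intro hm
    apply hg1
    apply Subtype.ext
    apply Equiv.ext
    intro z
    rw [hg, hr, hm]
    simp
  obtain ⟨r₀, hr₀⟩ := decay_shift μ hat hp hm hθ hε
  refine ⟨r₀, fun q hq S hne hinv hS x y => ?_⟩
  have hinv' : ∀ s ∈ S, MeasurePreserving (fun x : UnitAddCircle => s • x) μ μ :=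
    fun s hs => mp_of D (hinv s hs)
  have hcyc : ∀ c : ℕ, φ (x * g ^ c * y) = φ (g ^ c * (y * x)) := by
    intro c
    have := D.hcl (x * g ^ c * y) x⁻¹
    rw [← this]
    congr 1
    group
  simp_rw [hcyc]
  by_cases hw : ∃ s : ℚ, ∀ z : ℚ, ((y * x : G) : Equiv.Perm ℚ) z = z + s
  · obtain ⟨s, hw⟩ := hw
    obtain ⟨n, j, hs⟩ := D.six hw
    have hval : ∀ c : ℕ, φ (g ^ c * (y * x)) =
        ∫ z, (fourier (m * ((6 ^ j : ℕ) : ℤ) * (c : ℤ) + n * 6 ^ k) z : ℂ) ∂μ := by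
      intro c
      rw [D.hμ]
      refine phi_trans D.hτ D.hcl S6 D.hS6 _ _ (k + j) fun z => ?_
      rw [Subgroup.coe_mul, Equiv.Perm.mul_apply, hpow, hw, hr, hs]
      have h6 : (6 : ℚ) ^ k ≠ 0 := by positivity
      have h6' : (6 : ℚ) ^ j ≠ 0 := by positivity
      push_cast
      rw [pow_add]
      field_simp
      ring
    simp_rw [hval]
    exact hr₀ q hq S hne hinv' hS (6 ^ j) (n * 6 ^ k) (mp_six D j)
  · have hz : ∀ c : ℕ, φ (g ^ c * (y * x)) = 0 := by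
      intro c
      refine vanish D hat _ ?_
      rintro ⟨s, hs⟩
      apply hw
      refine ⟨s - c * r, fun z => ?_⟩
      have h1 := hs z
      rw [Subgroup.coe_mul, Equiv.Perm.mul_apply, hpow] at h1
      linarith
    simp_rw [hz]
    simp only [norm_zero, ne_eq, OfNat.ofNat_ne_zero, not_false_eq_true, zero_pow,
      Finset.sum_const_zero]
    positivity

/-- the invariance of the trace under the products of powers of 2 and 3 -/
lemma pow_inv (D : Data G τ φ S6 μ) (i j : ℕ) (h : G)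
    (hh : ∃ r : ℚ, ∀ x : ℚ, (h : Equiv.Perm ℚ) x = x + r) : φ (h ^ (2 ^ i * 3 ^ j)) = φ h := by
  obtain ⟨r, hh⟩ := hh
  obtain ⟨m, k, hr⟩ := D.six hh
  have e1 : φ h = φ (τ m) := phi_trans D.hτ D.hcl S6 D.hS6 h m k fun x => by rw [hh, hr]
  have e2 : φ (h ^ (2 ^ i * 3 ^ j)) = φ (τ (2 ^ i * 3 ^ j * m)) := by
    refine phi_trans D.hτ D.hcl S6 D.hS6 _ _ k fun x => ?_
    have := zpow_apply hh ((2 ^ i * 3 ^ j : ℕ) : ℤ) x
    rw [zpow_natCast] at this
    rw [this, hr]; push_cast; ring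
  have h2 : ∀ (i : ℕ) (n : ℤ), φ (τ (2 ^ i * n)) = φ (τ n) := by
    intro i n
    induction i with
    | zero => simp
    | succ i ih => rw [pow_succ', mul_assoc, D.h2, ih]
  have h3 : ∀ (i : ℕ) (n : ℤ), φ (τ (3 ^ i * n)) = φ (τ n) := by
    intro i n
    induction i with
    | zero => simp
    | succ i ih => rw [pow_succ', mul_assoc, D.h3, ih]
  rw [e1, e2, mul_assoc, h2, h3]

end

/-- **Sums of many exponents.** -/
theorem main (s2 s3 t : Equiv.Perm ℚ) (hs2 : ∀ x : ℚ, s2 x = 2 * x) (hs3 : ∀ x : ℚ, s3 x = 3 * x)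
    (ht : ∀ x : ℚ, t x = x + 1) (G : Subgroup (Equiv.Perm ℚ))
    (hG : G = Subgroup.closure {s2, s3, t}) (φ : G → ℂ)
    (hext : φ ∈ Set.extremePoints ℝ {ψ : G → ℂ | ψ 1 = 1 ∧ (∀ g h : G, ψ (h * g * h⁻¹) = ψ g) ∧
        ∀ (s : Finset G) (c : G → ℂ), 0 ≤ ∑ i ∈ s, ∑ j ∈ s, star (c j) * c i * ψ (j⁻¹ * i)})
    (hfd : ¬ FiniteDimensional ℂ (Submodule.span ℂ {F : G → ℂ | ∃ n : G,
          (∃ r : ℚ, ∀ x : ℚ, (n : Equiv.Perm ℚ) x = x + r) ∧ F = fun x => φ (n * x)})) :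
    (∀ g : G, g ≠ 1 → (∃ r : ℚ, ∀ x : ℚ, (g : Equiv.Perm ℚ) x = x + r) →
      ∀ (p : ℕ) (θ ε : ℝ), 2 ≤ p → 0 < θ → 0 < ε → ∃ r₀ : ℕ, ∀ r, r₀ ≤ r → ∀ S : Finset ℕ,
        S.Nonempty →
        (∀ s ∈ S, ∀ h : G, (∃ r : ℚ, ∀ x : ℚ, (h : Equiv.Perm ℚ) x = x + r) → φ (h ^ s) = φ h) →
        θ * S.card ≤ (S.filter (fun s => p * s ∈ S)).card → ∀ x y : G,
        ∑ f ∈ Fintype.piFinset (fun _ : Fin r => S), ‖φ (x * g ^ (∑ i, f i) * y)‖ ^ 2 ≤
          ε * (S.card : ℝ) ^ r) ∧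
    (φ ≠ Set.indicator ({1} : Set G) (fun _ => (1 : ℂ)) →
      ∀ (p : ℕ) (θ ε : ℝ), 2 ≤ p → 0 < θ → 0 < ε → ∃ r₀ : ℕ, ∀ r, r₀ ≤ r → ∀ S : Finset ℕ,
        S.Nonempty →
        (∀ s ∈ S, ∀ h : G, (∃ r : ℚ, ∀ x : ℚ, (h : Equiv.Perm ℚ) x = x + r) → φ (h ^ s) = φ h) →
        θ * S.card ≤ (S.filter (fun s => p * s ∈ S)).card →
        ({f : Fin r → ℕ | (∀ i, f i ∈ S) ∧ ∀ h : G, (∃ r : ℚ, ∀ x : ℚ,
          (h : Equiv.Perm ℚ) x = x + r) → φ (h ^ (∑ i, f i)) = φ h}.ncard : ℝ) ≤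
            ε * (S.card : ℝ) ^ r) ∧
    (∀ g : G, g ≠ 1 → (∃ r : ℚ, ∀ x : ℚ, (g : Equiv.Perm ℚ) x = x + r) →
      ∀ ε : ℝ, 0 < ε → ∃ r₀ : ℕ, ∀ r, r₀ ≤ r → ∀ M N : ℕ, 2 ≤ M → 1 ≤ N → ∀ x y : G,
        ∑ f : Fin r → Fin M × Fin N,
          ‖φ (x * g ^ (∑ i, 2 ^ ((f i).1 : ℕ) * 3 ^ ((f i).2 : ℕ)) * y)‖ ^ 2 ≤
            ε * ((M : ℝ) * N) ^ r) ∧
    (φ ≠ Set.indicator ({1} : Set G) (fun _ => (1 : ℂ)) →
      ∀ ε : ℝ, 0 < ε → ∃ r₀ : ℕ, ∀ r, r₀ ≤ r → ∀ M N : ℕ, 2 ≤ M → 1 ≤ N →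
        ({f : Fin r → Fin M × Fin N | ∀ h : G, (∃ r : ℚ, ∀ x : ℚ,
          (h : Equiv.Perm ℚ) x = x + r) →
            φ (h ^ (∑ i, 2 ^ ((f i).1 : ℕ) * 3 ^ ((f i).2 : ℕ))) = φ h}.ncard : ℝ) ≤
              ε * ((M : ℝ) * N) ^ r) := by
  classical
  obtain ⟨hφ1, hcl, hpd⟩ := hext.1
  obtain ⟨τ, S6, μ, D⟩ := data_of hs2 hs3 ht hG hφ1 hcl hpd
  have hprob := D.prob
  rcases finite_or_atomless D hext with h | hat
  · exact absurd h hfd
  -- a nonvanishing value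
  have hnz : φ ≠ Set.indicator ({1} : Set G) (fun _ => (1 : ℂ)) → ∃ g : G, g ≠ 1 ∧
      (∃ r : ℚ, ∀ x : ℚ, (g : Equiv.Perm ℚ) x = x + r) ∧ φ g ≠ 0 := by
    intro hreg
    by_contra hcon
    push Not at hcon
    apply hreg
    have hz' : ∀ n : ℤ, n ≠ 0 → φ (τ n) = 0 := by
      intro n hn
      refine hcon (τ n) ?_ ⟨n, D.hτ n⟩
      intro h0
      have h5 := D.hτ n 0
      rw [h0] at h5
      simp at h5
      exact hn (by exact_mod_cast h5.symm)
    funext g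
    by_cases hg : g = 1
    · rw [hg, D.h1]
      simp
    · rw [eq_regular D.hτ D.h1 D.hcl D.hpd S6 D.hS6 D.hform hz' g hg]
      simp [hg]
  have p1 := fun (g : G) (hg1 : g ≠ 1)
    (hg : ∃ r : ℚ, ∀ x : ℚ, (g : Equiv.Perm ℚ) x = x + r) (p : ℕ) (θ ε : ℝ) (hp : 2 ≤ p)
    (hθ : 0 < θ) (hε : 0 < ε) => trace_decay D hat hg1 hg hp hθ hε
  have p3 : ∀ g : G, g ≠ 1 → (∃ r : ℚ, ∀ x : ℚ, (g : Equiv.Perm ℚ) x = x + r) →
      ∀ ε : ℝ, 0 < ε → ∃ r₀ : ℕ, ∀ r, r₀ ≤ r → ∀ M N : ℕ, 2 ≤ M → 1 ≤ N → ∀ x y : G,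
        ∑ f : Fin r → Fin M × Fin N,
          ‖φ (x * g ^ (∑ i, 2 ^ ((f i).1 : ℕ) * 3 ^ ((f i).2 : ℕ)) * y)‖ ^ 2 ≤
            ε * ((M : ℝ) * N) ^ r := by
    intro g hg1 hg ε hε
    obtain ⟨r₀, hr₀⟩ := p1 g hg1 hg 2 (1 / 2) ε le_rfl (by norm_num) hε
    refine ⟨r₀, fun r hr M N hM hN x y => ?_⟩
    set w : ℕ × ℕ → ℕ := fun z => 2 ^ z.1 * 3 ^ z.2 with hw
    have hwinj : Function.Injective w := by
      intro a b hab
      obtain ⟨h1, h2⟩ := pq_inj le_rfl (by norm_num) irr23 hab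
      exact Prod.ext h1 h2
    set S : Finset ℕ := (Finset.range M ×ˢ Finset.range N).image w with hS
    have hcard : S.card = M * N := by
      rw [hS, Finset.card_image_of_injective _ hwinj, Finset.card_product, Finset.card_range,
        Finset.card_range]
    have hne : S.Nonempty := by
      rw [← Finset.card_pos, hcard]
      positivity
    have hinv : ∀ s ∈ S, ∀ h : G, (∃ r : ℚ, ∀ x : ℚ, (h : Equiv.Perm ℚ) x = x + r) →
        φ (h ^ s) = φ h := by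
      intro s hs h hh
      obtain ⟨z, _, rfl⟩ := Finset.mem_image.1 hs
      exact pow_inv D z.1 z.2 h hh
    have hfil : (1 / 2 : ℝ) * S.card ≤ (S.filter (fun s => 2 * s ∈ S)).card := by
      have h1 : (Finset.range (M - 1) ×ˢ Finset.range N).image w ⊆ S.filter (fun s => 2 * s ∈ S) := by
        intro s hs
        obtain ⟨z, hz, rfl⟩ := Finset.mem_image.1 hs
        rw [Finset.mem_product, Finset.mem_range, Finset.mem_range] at hz
        refine Finset.mem_filter.2 ⟨Finset.mem_image_of_mem _ ?_, ?_⟩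
        · rw [Finset.mem_product, Finset.mem_range, Finset.mem_range]
          exact ⟨by omega, hz.2⟩
        · refine Finset.mem_image.2 ⟨(z.1 + 1, z.2), ?_, ?_⟩
          · rw [Finset.mem_product, Finset.mem_range, Finset.mem_range]
            exact ⟨by omega, hz.2⟩
          · show 2 ^ (z.1 + 1) * 3 ^ z.2 = 2 * (2 ^ z.1 * 3 ^ z.2)
            ring
      have h2 := Finset.card_le_card h1
      rw [Finset.card_image_of_injective _ hwinj, Finset.card_product, Finset.card_range,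
        Finset.card_range] at h2
      have h3 : (((M - 1) * N : ℕ) : ℝ) ≤ (S.filter (fun s => 2 * s ∈ S)).card := by exact_mod_cast h2
      refine le_trans ?_ h3
      rw [hcard]
      push_cast [Nat.cast_sub (by omega : 1 ≤ M)]
      have hM' : (2 : ℝ) ≤ M := by exact_mod_cast hM
      have hN' : (0 : ℝ) ≤ N := by positivity
      nlinarith
    have h := hr₀ r hr S hne hinv hfil x y
    rw [hcard] at h
    push_cast at h
    refine le_trans ?_ h
    set Φ : (Fin r → Fin M × Fin N) → (Fin r → ℕ) := fun f i => w ((f i).1, (f i).2) with hΦ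
    have hΦinj : Function.Injective Φ := by
      intro a b hab
      funext i
      have h1 := hwinj (congrFun hab i)
      rw [Prod.mk.injEq] at h1
      exact Prod.ext (Fin.ext h1.1) (Fin.ext h1.2)
    rw [← Finset.sum_image (s := Finset.univ) (g := Φ)
      (f := fun f : Fin r → ℕ => ‖φ (x * g ^ (∑ i, f i) * y)‖ ^ 2) (hΦinj.injOn)]
    refine Finset.sum_le_sum_of_subset_of_nonneg ?_ fun _ _ _ => sq_nonneg _
    intro f hf
    obtain ⟨a, -, rfl⟩ := Finset.mem_image.1 hf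
    rw [Fintype.mem_piFinset]
    intro i
    refine Finset.mem_image_of_mem _ ?_
    rw [Finset.mem_product, Finset.mem_range, Finset.mem_range]
    exact ⟨(a i).1.2, (a i).2.2⟩
  refine ⟨p1, ?_, p3, ?_⟩
  · intro hreg p θ ε hp hθ hε
    obtain ⟨g, hg1, hg, hg0⟩ := hnz hreg
    have ha : 0 < ‖φ g‖ ^ 2 := by positivity
    obtain ⟨r₀, hr₀⟩ := p1 g hg1 hg p θ (ε * ‖φ g‖ ^ 2) hp hθ (by positivity)
    refine ⟨r₀, fun r hr S hne hinv hS => ?_⟩
    have h := hr₀ r hr S hne hinv hS 1 1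
    set A : Finset (Fin r → ℕ) := (Fintype.piFinset (fun _ : Fin r => S)).filter
      fun f => ∀ h : G, (∃ r : ℚ, ∀ x : ℚ, (h : Equiv.Perm ℚ) x = x + r) →
        φ (h ^ (∑ i, f i)) = φ h with hA
    have hAe : {f : Fin r → ℕ | (∀ i, f i ∈ S) ∧ ∀ h : G, (∃ r : ℚ, ∀ x : ℚ,
          (h : Equiv.Perm ℚ) x = x + r) → φ (h ^ (∑ i, f i)) = φ h} = (A : Set (Fin r → ℕ)) := by
      ext f
      simp [hA, Fintype.mem_piFinset]
    rw [hAe, Set.ncard_coe_finset]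
    have h1 : (A.card : ℝ) * ‖φ g‖ ^ 2 ≤ ε * ‖φ g‖ ^ 2 * (S.card : ℝ) ^ r := by
      refine le_trans ?_ h
      calc (A.card : ℝ) * ‖φ g‖ ^ 2 = ∑ f ∈ A, ‖φ g‖ ^ 2 := by rw [Finset.sum_const, nsmul_eq_mul]
        _ = ∑ f ∈ A, ‖φ (1 * g ^ (∑ i, f i) * 1)‖ ^ 2 := by
            refine Finset.sum_congr rfl fun f hf => ?_
            rw [one_mul, mul_one, (Finset.mem_filter.1 hf).2 g hg]
        _ ≤ _ := Finset.sum_le_sum_of_subset_of_nonneg (Finset.filter_subset _ _)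
            fun _ _ _ => sq_nonneg _
    have h2 : (A.card : ℝ) * ‖φ g‖ ^ 2 ≤ (ε * (S.card : ℝ) ^ r) * ‖φ g‖ ^ 2 := by linarith
    exact le_of_mul_le_mul_right h2 ha
  · intro hreg ε hε
    obtain ⟨g, hg1, hg, hg0⟩ := hnz hreg
    have ha : 0 < ‖φ g‖ ^ 2 := by positivity
    obtain ⟨r₀, hr₀⟩ := p3 g hg1 hg (ε * ‖φ g‖ ^ 2) (by positivity)
    refine ⟨r₀, fun r hr M N hM hN => ?_⟩
    have h := hr₀ r hr M N hM hN 1 1
    set A : Finset (Fin r → Fin M × Fin N) := Finset.univ.filter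
      fun f => ∀ h : G, (∃ r : ℚ, ∀ x : ℚ, (h : Equiv.Perm ℚ) x = x + r) →
        φ (h ^ (∑ i, 2 ^ ((f i).1 : ℕ) * 3 ^ ((f i).2 : ℕ))) = φ h with hA
    have hAe : {f : Fin r → Fin M × Fin N | ∀ h : G, (∃ r : ℚ, ∀ x : ℚ,
          (h : Equiv.Perm ℚ) x = x + r) →
            φ (h ^ (∑ i, 2 ^ ((f i).1 : ℕ) * 3 ^ ((f i).2 : ℕ))) = φ h} =
        (A : Set (Fin r → Fin M × Fin N)) := by
      ext f
      simp [hA]
    rw [hAe, Set.ncard_coe_finset]
    have h1 : (A.card : ℝ) * ‖φ g‖ ^ 2 ≤ ε * ‖φ g‖ ^ 2 * ((M : ℝ) * N) ^ r := by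
      refine le_trans ?_ h
      calc (A.card : ℝ) * ‖φ g‖ ^ 2 = ∑ f ∈ A, ‖φ g‖ ^ 2 := by rw [Finset.sum_const, nsmul_eq_mul]
        _ = ∑ f ∈ A, ‖φ (1 * g ^ (∑ i, 2 ^ ((f i).1 : ℕ) * 3 ^ ((f i).2 : ℕ)) * 1)‖ ^ 2 := by
            refine Finset.sum_congr rfl fun f hf => ?_
            rw [one_mul, mul_one, (Finset.mem_filter.1 hf).2 g hg]
        _ ≤ _ := Finset.sum_le_sum_of_subset_of_nonneg (Finset.filter_subset _ _)
            fun _ _ _ => sq_nonneg _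
    have h2 : (A.card : ℝ) * ‖φ g‖ ^ 2 ≤ (ε * ((M : ℝ) * N) ^ r) * ‖φ g‖ ^ 2 := by linarith
    exact le_of_mul_le_mul_right h2 ha

end Pool.Agent.R481.TraceSS
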